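import Pool.Agent.W203.WS.Stm2

set_option autoImplicit false

open MeasureTheory Finset Filter
open Pool.Agent.W203.WS

namespace Pool.Agent.W474.WT

lemma norm_e (x : ℝ) : ‖e x‖ = 1 := by
  unfold e
  rw [Complex.norm_exp]
  simp

lemma cont_e : Continuous e := by
  unfold e
  fun_prop

lemma cont_S (k P : ℕ) (θ : ℝ) : Continuous fun t : ℝ => S k P t θ := by
  unfold S
  refine continuous_finset_sum _ fun x _ => ?_
  exact cont_e.comp (by fun_prop)

lemma cont_aa (σ : ℝ) : Continuous fun t : ℝ => aa σ t := by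
  unfold aa
  refine Continuous.mul (by fun_prop) (cont_e.comp (by fun_prop))

lemma cont_J1 (k P : ℕ) : Continuous fun t : ℝ => J1 k P t := by
  unfold J1
  refine intervalIntegral.continuous_parametric_intervalIntegral_of_continuous' ?_ _ _
  exact cont_e.comp (by fun_prop)

lemma summ (σ y : ℝ) (hσ : 0 < σ) :
    Summable fun n : ℤ => Real.exp (-Real.pi * ((y - 1 / 2 - n) / σ) ^ 2) := by
  set c : ℝ := y - 1 / 2 with hc
  have h := (summable_jacobiTheta₂_term_iff (-(Complex.I * (c / σ ^ 2 : ℝ)))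
    (Complex.I * (1 / σ ^ 2 : ℝ))).2 (by
      rw [Complex.I_mul_im, Complex.ofReal_re]
      positivity)
  have h' := (h.norm).mul_left (Real.exp (-Real.pi * (c / σ) ^ 2))
  refine h'.congr fun n => ?_
  rw [norm_jacobiTheta₂_term, ← Real.exp_add]
  congr 1
  simp only [Complex.neg_im, Complex.I_mul_im, Complex.ofReal_re]
  field_simp
  ring

lemma cont_rho (σ y : ℝ) (hσ : 0 < σ) : Continuous fun t : ℝ => rho σ t y := by
  unfold rho
  refine continuous_tsum (fun n => ?_) (summ σ y hσ) (fun n t => ?_)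
  · exact (cont_e.comp (by fun_prop)).mul continuous_const
  · rw [norm_mul, norm_e, one_mul, Complex.norm_real, Real.norm_eq_abs, abs_of_pos (Real.exp_pos _)]

lemma cont_T (k P : ℕ) (σ θ : ℝ) (hσ : 0 < σ) : Continuous fun t : ℝ => T k P σ t θ := by
  unfold T
  exact continuous_finset_sum _ fun x _ => cont_rho σ _ hσ

lemma norm_aa (σ t : ℝ) (h0 : 0 < σ) (h1 : σ ≤ 1) : ‖aa σ t‖ ≤ 1 := by
  unfold aa
  rw [norm_mul, norm_e, mul_one, Complex.norm_real, Real.norm_eq_abs,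
    abs_of_pos (mul_pos h0 (Real.exp_pos _))]
  refine mul_le_one₀ h1 (Real.exp_pos _).le (Real.exp_le_one_iff.2 ?_)
  have := Real.pi_pos
  nlinarith [sq_nonneg (σ * t)]

lemma norm_S (k P : ℕ) (t θ : ℝ) : ‖S k P t θ‖ ≤ 3 * P := by
  unfold S
  refine (norm_sum_le _ _).trans ?_
  simp only [norm_e, sum_const, Nat.card_Ico, nsmul_eq_mul, mul_one]
  have : 4 * P - P = 3 * P := by omega
  rw [this]
  push_cast
  exact le_rfl

lemma norm_J1 (k P : ℕ) (t : ℝ) : ‖J1 k P t‖ ≤ 3 * P := by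
  unfold J1
  refine (intervalIntegral.norm_integral_le_of_norm_le_const (C := 1) (fun x _ => (norm_e _).le)).trans ?_
  rw [one_mul, show (4 * (P : ℝ) - P) = 3 * P by ring, abs_of_nonneg (by positivity)]

lemma int_Er (k s P : ℕ) (θ : Fin s → ℝ) :
    Integrable fun t : ℝ => Kh 1 t * ‖(∏ i, S k P t (θ i)) - J1 k P t ^ s‖ := by
  have hK : Integrable fun t : ℝ => Kh 1 t := by
    unfold Kh
    have := integrable_exp_neg_mul_sq Real.pi_pos
    refine this.congr (ae_of_all _ fun t => ?_)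
    simp
  have hc : Continuous fun t : ℝ => ‖(∏ i, S k P t (θ i)) - J1 k P t ^ s‖ :=
    ((continuous_finset_prod _ fun i _ => cont_S k P (θ i)).sub ((cont_J1 k P).pow s)).norm
  refine hK.mul_bdd (c := (3 * (P : ℝ)) ^ s + (3 * (P : ℝ)) ^ s) hc.aestronglyMeasurable
    (ae_of_all _ fun t => ?_)
  rw [norm_norm]
  refine (norm_sub_le _ _).trans (add_le_add ?_ ?_)
  · rw [norm_prod]
    refine (Finset.prod_le_prod (fun i _ => norm_nonneg _) (fun i _ => norm_S k P t (θ i))).trans ?_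
    simp
  · rw [norm_pow]
    exact pow_le_pow_left₀ (norm_nonneg _) (norm_J1 k P t) s

lemma Er_nonneg (k s P : ℕ) (ε : ℝ) (hε : 0 ≤ ε) (θ : Fin s → ℝ) : 0 ≤ Er k s P ε θ := by
  unfold Er
  refine integral_nonneg fun t => ?_
  unfold Kh
  positivity

/-- the pointwise comparison -/
lemma point (k s P : ℕ) (σ : ℝ) (h0 : 0 < σ) (h1 : σ ≤ 1) (θ : Fin s → ℝ) (N : ℤ) :
    ‖(∫ t in (-(1 / 2) : ℝ)..(1 / 2), e (-(t * N)) * ∏ i, T k P σ t (θ i)) -
          ∫ t in (-(1 / 2) : ℝ)..(1 / 2), e (-(t * N)) * (aa σ t ^ s * J1 k P t ^ s)‖ ≤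
      (∫ t in (-(1 / 2) : ℝ)..(1 / 2),
        ‖(∏ i, T k P σ t (θ i)) - aa σ t ^ s * ∏ i, S k P t (θ i)‖) +
      Real.exp (Real.pi / 4) * Er k s P 1 θ := by
  have ce : Continuous fun t : ℝ => e (-(t * N)) := cont_e.comp (by fun_prop)
  have cT : Continuous fun t : ℝ => ∏ i, T k P σ t (θ i) :=
    continuous_finset_prod _ fun i _ => cont_T k P σ (θ i) h0
  have cS : Continuous fun t : ℝ => ∏ i, S k P t (θ i) :=
    continuous_finset_prod _ fun i _ => cont_S k P (θ i)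
  have ca : Continuous fun t : ℝ => aa σ t ^ s := (cont_aa σ).pow s
  have cJ : Continuous fun t : ℝ => J1 k P t ^ s := (cont_J1 k P).pow s
  have cK : Continuous fun t : ℝ => Kh 1 t := by
    unfold Kh
    fun_prop
  have c1 : Continuous fun t : ℝ => e (-(t * N)) * ∏ i, T k P σ t (θ i) := ce.mul cT
  have c2 : Continuous fun t : ℝ => e (-(t * N)) * (aa σ t ^ s * J1 k P t ^ s) :=
    ce.mul (ca.mul cJ)
  rw [← intervalIntegral.integral_sub (c1.intervalIntegrable _ _) (c2.intervalIntegrable _ _)]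
  have hle : (-(1 / 2) : ℝ) ≤ 1 / 2 := by norm_num
  refine (intervalIntegral.norm_integral_le_integral_norm hle).trans ?_
  have hb : (∫ t in (-(1 / 2) : ℝ)..(1 / 2),
      Kh 1 t * ‖(∏ i, S k P t (θ i)) - J1 k P t ^ s‖) ≤ Er k s P 1 θ := by
    unfold Er
    rw [intervalIntegral.integral_of_le hle]
    refine setIntegral_le_integral (int_Er k s P θ) (ae_of_all _ fun t => ?_)
    simp only [Pi.zero_apply]
    unfold Kh
    positivity
  have hcX : Continuous fun t : ℝ =>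
      ‖(∏ i, T k P σ t (θ i)) - aa σ t ^ s * ∏ i, S k P t (θ i)‖ := (cT.sub (ca.mul cS)).norm
  have hcY : Continuous fun t : ℝ =>
      Kh 1 t * ‖(∏ i, S k P t (θ i)) - J1 k P t ^ s‖ := cK.mul (cS.sub cJ).norm
  refine le_trans ?_ (add_le_add le_rfl (mul_le_mul_of_nonneg_left hb (Real.exp_pos _).le))
  rw [← intervalIntegral.integral_const_mul, ← intervalIntegral.integral_add
    (hcX.intervalIntegrable _ _) ((hcY.intervalIntegrable _ _).const_mul _)]
  have c3 : Continuous fun t : ℝ => ‖e (-(t * N)) * (∏ i, T k P σ t (θ i)) -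
      e (-(t * N)) * (aa σ t ^ s * J1 k P t ^ s)‖ := (c1.sub c2).norm
  have c4 : Continuous fun t : ℝ =>
      ‖(∏ i, T k P σ t (θ i)) - aa σ t ^ s * ∏ i, S k P t (θ i)‖ +
      Real.exp (Real.pi / 4) * (Kh 1 t * ‖(∏ i, S k P t (θ i)) - J1 k P t ^ s‖) :=
    hcX.add (continuous_const.mul hcY)
  refine intervalIntegral.integral_mono_on hle (c3.intervalIntegrable _ _)
    (c4.intervalIntegrable _ _) ?_
  intro t ht
  have hsplit : e (-(t * N)) * (∏ i, T k P σ t (θ i)) - e (-(t * N)) * (aa σ t ^ s * J1 k P t ^ s) =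
      e (-(t * N)) * (((∏ i, T k P σ t (θ i)) - aa σ t ^ s * ∏ i, S k P t (θ i)) +
        aa σ t ^ s * ((∏ i, S k P t (θ i)) - J1 k P t ^ s)) := by ring
  rw [hsplit, norm_mul, norm_e, one_mul]
  refine (norm_add_le _ _).trans (add_le_add le_rfl ?_)
  rw [norm_mul, norm_pow]
  have h2 : ‖aa σ t‖ ^ s ≤ 1 := pow_le_one₀ (norm_nonneg _) (norm_aa σ t h0 h1)
  refine (mul_le_mul_of_nonneg_right h2 (norm_nonneg _)).trans ?_
  rw [← mul_assoc]
  refine mul_le_mul_of_nonneg_right ?_ (norm_nonneg _)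
  unfold Kh
  rw [one_mul, one_mul, ← Real.exp_add]
  refine Real.one_le_exp ?_
  have ht2 : t ^ 2 ≤ 1 / 4 := by
    have h3 : |t| ≤ 1 / 2 := abs_le.2 ⟨ht.1, ht.2⟩
    calc t ^ 2 = |t| ^ 2 := (sq_abs t).symm
      _ ≤ (1 / 2) ^ 2 := pow_le_pow_left₀ (abs_nonneg _) h3 2
      _ = 1 / 4 := by norm_num
  have := Real.pi_pos
  nlinarith

lemma cube_finite (s : ℕ) : (volume : Measure (Fin s → ℝ)) (cube s) < ⊤ := by
  have : IsCompact (cube s) := isCompact_univ_pi fun _ => isCompact_Icc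
  exact this.measure_lt_top

theorem t_BC2 (h1 : S_EE) (h2 : S_E2) : S_BC2 := by
  intro k s hk hs
  have hs5 : 5 ≤ s := by omega
  obtain ⟨C₁, hC₁, hE⟩ := h1 k s hk hs5
  obtain ⟨C₂, hC₂, hF⟩ := h2 k s hk hs5
  have : IsFiniteMeasure ((volume : Measure (Fin s → ℝ)).restrict (cube s)) :=
    ⟨by rw [Measure.restrict_apply_univ]; exact cube_finite s⟩
  have hP0 : ∀ j : ℕ, (0 : ℝ) < (2 : ℝ) ^ j := fun j => by positivity
  have hP1 : ∀ j : ℕ, (1 : ℝ) ≤ (2 : ℝ) ^ j := fun j => one_le_pow₀ (by norm_num)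
  have hcast : ∀ j : ℕ, ((2 ^ j : ℕ) : ℝ) = (2 : ℝ) ^ j := fun j => by push_cast; rfl
  set σ : ℕ → ℝ := fun j => ((2 : ℝ) ^ j) ^ (-(1 / (16 * (s : ℝ)))) with hσdef
  have hσ0 : ∀ j : ℕ, 0 < σ j := fun j => Real.rpow_pos_of_pos (hP0 j) _
  have hσ1 : ∀ j : ℕ, σ j ≤ 1 := fun j =>
    Real.rpow_le_one_of_one_le_of_nonpos (hP1 j) (by
      have : 0 ≤ 1 / (16 * (s : ℝ)) := by positivity
      linarith)
  set X : ℕ → (Fin s → ℝ) → ℝ := fun j θ => ∫ t in (-(1 / 2) : ℝ)..(1 / 2),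
      ‖(∏ i, T k (2 ^ j) (σ j) t (θ i)) - aa (σ j) t ^ s * ∏ i, S k (2 ^ j) t (θ i)‖ with hX
  set f : ℕ → (Fin s → ℝ) → ℝ := fun j θ =>
    X j θ + Real.exp (Real.pi / 4) * Er k s (2 ^ j) 1 θ with hf
  have hXnn : ∀ j θ, 0 ≤ X j θ := fun j θ =>
    intervalIntegral.integral_nonneg (by norm_num) fun t _ => norm_nonneg _
  have hfnn : ∀ j θ, 0 ≤ f j θ := fun j θ =>
    add_nonneg (hXnn j θ) (mul_nonneg (Real.exp_pos _).le (Er_nonneg k s _ 1 zero_le_one θ))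
  set A : ℝ := 2 * (C₂ + Real.exp (Real.pi / 4) * C₁) with hA
  have hApos : 0 < A := by positivity
  have hsr : (2 : ℝ) * k + 1 ≤ s := by exact_mod_cast hs
  have hbound : ∀ j : ℕ, ((volume : Measure (Fin s → ℝ)).restrict (cube s))
      {θ | ((2 : ℝ) ^ j) ^ ((s : ℝ) - k - 1 / 8) ≤ f j θ} ≤
      ENNReal.ofReal (A * ((2 : ℝ) ^ (-(1 / 8) : ℝ)) ^ j) := by
    intro j
    obtain ⟨hint1, hle1⟩ := hE (2 ^ j) 1 Nat.one_le_two_pow one_pos le_rfl
    obtain ⟨hint2, hle2⟩ := hF (2 ^ j) (σ j) Nat.one_le_two_pow (hσ0 j) (hσ1 j)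
    have hint : Integrable (f j) ((volume : Measure (Fin s → ℝ)).restrict (cube s)) :=
      hint2.add (hint1.const_mul _)
    have hm := mul_meas_ge_le_integral_of_nonneg
      (μ := (volume : Measure (Fin s → ℝ)).restrict (cube s))
      (f := f j) (ae_of_all _ fun θ => hfnn j θ) hint
      (((2 : ℝ) ^ j) ^ ((s : ℝ) - k - 1 / 8))
    rw [← ENNReal.ofReal_toReal (measure_ne_top _ _)]
    refine ENNReal.ofReal_le_ofReal ?_
    have hI : ∫ θ in cube s, f j θ = (∫ θ in cube s, X j θ) +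
        Real.exp (Real.pi / 4) * ∫ θ in cube s, Er k s (2 ^ j) 1 θ := by
      simp only [hf]
      rw [integral_add hint2 (hint1.const_mul _), integral_const_mul]
    rw [hcast j] at hle1 hle2
    have r1 : ((2 : ℝ) ^ j) ^ ((s : ℝ) - k - 1 / 2) ≤ ((2 : ℝ) ^ j) ^ ((s : ℝ) - k - 1 / 4) :=
      Real.rpow_le_rpow_of_exponent_le (hP1 j) (by linarith)
    have r2 : ((2 : ℝ) ^ j) ^ ((s : ℝ) / 2) ≤ ((2 : ℝ) ^ j) ^ ((s : ℝ) - k - 1 / 4) :=
      Real.rpow_le_rpow_of_exponent_le (hP1 j) (by linarith)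
    have hup : ∫ θ in cube s, f j θ ≤ A * ((2 : ℝ) ^ j) ^ ((s : ℝ) - k - 1 / 4) := by
      rw [hI]
      have a1 : (∫ θ in cube s, X j θ) ≤ C₂ * (2 * ((2 : ℝ) ^ j) ^ ((s : ℝ) - k - 1 / 4)) :=
        hle2.trans (mul_le_mul_of_nonneg_left (by linarith) hC₂.le)
      have a2 : (∫ θ in cube s, Er k s (2 ^ j) 1 θ) ≤
          C₁ * (2 * ((2 : ℝ) ^ j) ^ ((s : ℝ) - k - 1 / 4)) :=
        hle1.trans (mul_le_mul_of_nonneg_left (by linarith) hC₁.le)
      have a3 := mul_le_mul_of_nonneg_left a2 (Real.exp_pos (Real.pi / 4)).le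
      refine (add_le_add a1 a3).trans (le_of_eq ?_)
      rw [hA]
      ring
    have hm2 := hm.trans hup
    have hQ : (0 : ℝ) < ((2 : ℝ) ^ j) ^ ((s : ℝ) - k - 1 / 8) := Real.rpow_pos_of_pos (hP0 j) _
    have e1 : ((2 : ℝ) ^ j) ^ ((s : ℝ) - k - 1 / 4) =
        ((2 : ℝ) ^ j) ^ ((s : ℝ) - k - 1 / 8) * ((2 : ℝ) ^ (-(1 / 8) : ℝ)) ^ j := by
      rw [Real.rpow_pow_comm (by norm_num), ← Real.rpow_add (hP0 j)]
      congr 1
      ring
    rw [e1] at hm2
    have hm3 : ((2 : ℝ) ^ j) ^ ((s : ℝ) - k - 1 / 8) *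
        ((volume : Measure (Fin s → ℝ)).restrict (cube s)).real
        {θ | ((2 : ℝ) ^ j) ^ ((s : ℝ) - k - 1 / 8) ≤ f j θ} ≤
        ((2 : ℝ) ^ j) ^ ((s : ℝ) - k - 1 / 8) * (A * ((2 : ℝ) ^ (-(1 / 8) : ℝ)) ^ j) := by
      refine le_trans (le_of_eq rfl) (hm2.trans (le_of_eq ?_))
      ring
    exact le_of_mul_le_mul_left hm3 hQ
  have hsum : Summable (fun j : ℕ => A * ((2 : ℝ) ^ (-(1 / 8) : ℝ)) ^ j) := by
    refine Summable.mul_left _ ?_
    exact summable_geometric_of_lt_one (by positivity)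
        (Real.rpow_lt_one_of_one_lt_of_neg (by norm_num) (by norm_num))
  have htop : ∑' j : ℕ, ((volume : Measure (Fin s → ℝ)).restrict (cube s))
      {θ | ((2 : ℝ) ^ j) ^ ((s : ℝ) - k - 1 / 8) ≤ f j θ} ≠ ⊤ := by
    refine ne_top_of_le_ne_top ?_ (ENNReal.tsum_le_tsum hbound)
    exact hsum.tsum_ofReal_ne_top
  have hae := ae_eventually_notMem htop
  filter_upwards [hae] with θ hθ
  obtain ⟨j₀, hj₀⟩ := eventually_atTop.mp hθ
  refine ⟨j₀, fun j hj N => ?_⟩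
  have hb := not_le.1 (hj₀ j hj)
  exact (point k s (2 ^ j) (σ j) (hσ0 j) (hσ1 j) θ N).trans hb.le

end Pool.Agent.W474.WT
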