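import Pool.Agent.W203.WS.Stm2

/-!
Project WT (problem MP_efcac8_nt), part E2: the average over the shifts of the difference between
the product of the smoothed sums over integer parts and the product of the exponential sums.
-/

set_option autoImplicit false

open MeasureTheory Finset

namespace Pool.Agent.W490.WT

open Pool.Agent.W203.WS

theorem prod_bound {ι : Type*} [DecidableEq ι] (t : Finset ι) (f g : ι → ℂ) :
    ‖∏ i ∈ t, f i - ∏ i ∈ t, g i‖ ≤ ∏ i ∈ t, (‖g i‖ + ‖f i - g i‖) - ∏ i ∈ t, ‖g i‖ := by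
  induction t using Finset.induction_on with
  | empty => simp
  | insert a t ha ih =>
    rw [prod_insert ha, prod_insert ha, prod_insert ha, prod_insert ha]
    have e1 : f a * ∏ i ∈ t, f i - g a * ∏ i ∈ t, g i =
      f a * (∏ i ∈ t, f i - ∏ i ∈ t, g i) + (f a - g a) * ∏ i ∈ t, g i := by ring
    rw [e1]
    refine (norm_add_le _ _).trans ?_
    rw [norm_mul, norm_mul, norm_prod]
    set U := ∏ i ∈ t, (‖g i‖ + ‖f i - g i‖) with hU
    set V := ∏ i ∈ t, ‖g i‖ with hV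
    have h1 : ‖f a‖ ≤ ‖g a‖ + ‖f a - g a‖ := by
      calc ‖f a‖ = ‖g a + (f a - g a)‖ := by congr 1; ring
        _ ≤ _ := norm_add_le _ _
    have h2 : 0 ≤ U - V := (norm_nonneg _).trans ih
    calc ‖f a‖ * ‖∏ i ∈ t, f i - ∏ i ∈ t, g i‖ + ‖f a - g a‖ * V
        ≤ (‖g a‖ + ‖f a - g a‖) * (U - V) + ‖f a - g a‖ * V := by gcongr
      _ = _ := by ring

theorem cube_restrict (s : ℕ) : (volume : Measure (Fin s → ℝ)).restrict (cube s) =
    Measure.pi (fun _ => (volume : Measure ℝ).restrict (Set.Icc 0 1)) := by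
  rw [volume_pi, cube, Measure.restrict_pi_pi]

theorem cube_prod (s : ℕ) (h : ℝ → ℝ) :
    ∫ θ in cube s, ∏ i, h (θ i) = (∫ x in (0 : ℝ)..1, h x) ^ s := by
  rw [cube_restrict, integral_fintype_prod_eq_pow, Fintype.card_fin,
    intervalIntegral.integral_of_le zero_le_one, integral_Icc_eq_integral_Ioc]

theorem cube_prod_int (s : ℕ) (h : ℝ → ℝ) (hh : Continuous h) :
    IntegrableOn (fun θ : Fin s → ℝ => ∏ i, h (θ i)) (cube s) := by
  unfold IntegrableOn
  rw [cube_restrict]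
  exact Integrable.fintype_prod (fun _ => hh.continuousOn.integrableOn_Icc)

theorem jensen (h : ℝ → ℝ) (hh : Continuous h) :
    ∫ x in (0 : ℝ)..1, h x ≤ Real.sqrt (∫ x in (0 : ℝ)..1, h x ^ 2) := by
  apply Real.le_sqrt_of_sq_le
  set c := ∫ x in (0 : ℝ)..1, h x with hc
  have h1 : 0 ≤ ∫ x in (0 : ℝ)..1, (h x - c) ^ 2 :=
    intervalIntegral.integral_nonneg zero_le_one (fun x _ => sq_nonneg _)
  have h2 : ∫ x in (0 : ℝ)..1, (h x - c) ^ 2 =
      (∫ x in (0 : ℝ)..1, h x ^ 2) - 2 * c * c + c ^ 2 := by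
    have e : ∀ x, (h x - c) ^ 2 = h x ^ 2 - (2 * c) * h x + c ^ 2 := fun x => by ring
    simp_rw [e]
    rw [intervalIntegral.integral_add, intervalIntegral.integral_sub,
      intervalIntegral.integral_const_mul, intervalIntegral.integral_const]
    · simp [hc]
    · exact (hh.pow 2).intervalIntegrable _ _
    · exact (continuous_const.mul hh).intervalIntegrable _ _
    · exact ((hh.pow 2).sub (continuous_const.mul hh)).intervalIntegrable _ _
    · exact continuous_const.intervalIntegrable _ _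
  rw [h2] at h1
  nlinarith

/-- average of the difference of two products -/
theorem avg (s : ℕ) (f g : ℝ → ℂ) (hf : Continuous f) (hg : Continuous g) (R A : ℝ)
    (hR : ∫ x in (0 : ℝ)..1, ‖f x - g x‖ ^ 2 ≤ R) (hA : ∫ x in (0 : ℝ)..1, ‖g x‖ ^ 2 ≤ A) :
    ∫ θ in cube s, ‖∏ i, f (θ i) - ∏ i, g (θ i)‖ ≤
      s * Real.sqrt R * (Real.sqrt A + Real.sqrt R) ^ (s - 1) := by
  have c1 : Continuous (fun x => ‖g x‖) := hg.norm
  have c2 : Continuous (fun x => ‖f x - g x‖) := (hf.sub hg).norm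
  have c3 : Continuous (fun x => ‖g x‖ + ‖f x - g x‖) := c1.add c2
  have hcm : MeasurableSet (cube s) := MeasurableSet.univ_pi (fun _ => measurableSet_Icc)
  have hcc : IsCompact (cube s) := isCompact_univ_pi (fun _ => isCompact_Icc)
  have cf : Continuous (fun θ : Fin s → ℝ => ‖∏ i, f (θ i) - ∏ i, g (θ i)‖) := by
    refine Continuous.norm (Continuous.sub ?_ ?_)
    · exact continuous_finsetProd _ (fun i _ => hf.comp (continuous_apply i))
    · exact continuous_finsetProd _ (fun i _ => hg.comp (continuous_apply i))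
  have h1 : ∫ θ in cube s, ‖∏ i, f (θ i) - ∏ i, g (θ i)‖ ≤
      ∫ θ in cube s, (∏ i, (‖g (θ i)‖ + ‖f (θ i) - g (θ i)‖) - ∏ i, ‖g (θ i)‖) := by
    refine setIntegral_mono (cf.continuousOn.integrableOn_compact hcc) ?_ ?_
    · exact (cube_prod_int s _ c3).sub (cube_prod_int s _ c1)
    · intro θ
      exact prod_bound univ (fun i => f (θ i)) (fun i => g (θ i))
  refine h1.trans ?_
  rw [integral_sub (cube_prod_int s _ c3) (cube_prod_int s _ c1), cube_prod s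
    (fun x => ‖g x‖ + ‖f x - g x‖), cube_prod s (fun x => ‖g x‖),
    intervalIntegral.integral_add (c1.intervalIntegrable _ _) (c2.intervalIntegrable _ _)]
  set a := ∫ x in (0 : ℝ)..1, ‖g x‖ with ha
  set r := ∫ x in (0 : ℝ)..1, ‖f x - g x‖ with hr
  have ha0 : 0 ≤ a := intervalIntegral.integral_nonneg zero_le_one (fun x _ => norm_nonneg _)
  have hr0 : 0 ≤ r := intervalIntegral.integral_nonneg zero_le_one (fun x _ => norm_nonneg _)
  have ha1 : a ≤ Real.sqrt A :=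
    (jensen _ c1).trans (Real.sqrt_le_sqrt hA)
  have hr1 : r ≤ Real.sqrt R :=
    (jensen _ c2).trans (Real.sqrt_le_sqrt hR)
  have h3 : (a + r) ^ s - a ^ s ≤ s * r * (a + r) ^ (s - 1) := by
    clear h1 cf hcc hcm
    induction s with
    | zero => simp
    | succ n ih =>
      have h5 : a ^ n ≤ (a + r) ^ n := pow_le_pow_left₀ ha0 (by linarith) n
      have h6 : (a + r) * (n * r * (a + r) ^ (n - 1)) = n * r * (a + r) ^ n := by
        cases n with
        | zero => simp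
        | succ m =>
          rw [Nat.add_sub_cancel, pow_succ]
          ring
      have h7 : (a + r) * ((a + r) ^ n - a ^ n) ≤ (a + r) * (n * r * (a + r) ^ (n - 1)) :=
        mul_le_mul_of_nonneg_left ih (by linarith)
      have h8 : r * a ^ n ≤ r * (a + r) ^ n := mul_le_mul_of_nonneg_left h5 hr0
      rw [h6] at h7
      have h9 : (a + r) ^ (n + 1) - a ^ (n + 1) = (a + r) * ((a + r) ^ n - a ^ n) + r * a ^ n := by
        ring
      rw [h9, Nat.add_sub_cancel]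
      push_cast
      linarith
  refine h3.trans ?_
  gcongr

theorem norm_e (x : ℝ) : ‖e x‖ = 1 := by
  unfold e
  have : 2 * (Real.pi : ℂ) * Complex.I * (x : ℂ) = ((2 * Real.pi * x : ℝ) : ℂ) * Complex.I := by
    push_cast; ring
  rw [this, Complex.norm_exp_ofReal_mul_I]

theorem cont_e : Continuous e := by
  unfold e
  fun_prop

theorem summable_gauss (σ : ℝ) (hσ : 0 < σ) :
    Summable (fun n : ℤ => Real.exp (-(Real.pi * (n : ℝ) ^ 2 / (2 * σ ^ 2)))) := by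
  have hc : 0 < Real.pi / (2 * σ ^ 2) := by positivity
  have h1 : Summable (fun n : ℕ => Real.exp (-(Real.pi * (n : ℝ) ^ 2 / (2 * σ ^ 2)))) := by
    refine Summable.of_nonneg_of_le (fun n => (Real.exp_pos _).le)
      (f := fun n : ℕ => Real.exp (-(Real.pi / (2 * σ ^ 2))) ^ n) (fun n => ?_) ?_
    · rw [← Real.exp_nat_mul]
      apply Real.exp_le_exp.mpr
      have h2 : (n : ℝ) ≤ (n : ℝ) ^ 2 := by
        exact_mod_cast Nat.le_self_pow two_ne_zero n
      have h3 : (n : ℝ) * (Real.pi / (2 * σ ^ 2)) ≤ (n : ℝ) ^ 2 * (Real.pi / (2 * σ ^ 2)) := by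
        gcongr
      have h4 : Real.pi * (n : ℝ) ^ 2 / (2 * σ ^ 2) = (n : ℝ) ^ 2 * (Real.pi / (2 * σ ^ 2)) := by
        ring
      rw [h4]
      linarith
    · apply summable_geometric_of_lt_one (Real.exp_pos _).le
      rw [Real.exp_lt_one_iff]
      linarith
  refine Summable.of_nat_of_neg ?_ ?_
  · refine h1.congr fun n => ?_
    push_cast
    rfl
  · refine h1.congr fun n => ?_
    push_cast
    rw [neg_sq]

theorem cont_rho (σ : ℝ) (hσ : 0 < σ) : Continuous (fun p : ℝ × ℝ => rho σ p.1 p.2) := by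
  rw [continuous_iff_continuousAt]
  intro p
  obtain ⟨Y, hY⟩ : ∃ Y : ℝ, |p.2| < Y := ⟨|p.2| + 1, by linarith⟩
  have hopen : IsOpen {q : ℝ × ℝ | |q.2| < Y} := isOpen_lt (by fun_prop) continuous_const
  refine ContinuousOn.continuousAt ?_ (hopen.mem_nhds hY)
  unfold rho
  refine continuousOn_tsum
    (u := fun n : ℤ => Real.exp (Real.pi * (Y + 1 / 2) ^ 2 / σ ^ 2) *
      Real.exp (-(Real.pi * (n : ℝ) ^ 2 / (2 * σ ^ 2)))) ?_ ?_ ?_
  · intro n
    refine Continuous.continuousOn ?_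
    refine Continuous.mul (cont_e.comp (by fun_prop)) ?_
    exact Complex.continuous_ofReal.comp (by fun_prop)
  · exact (summable_gauss σ hσ).mul_left _
  · intro n q hq
    rw [norm_mul, norm_e, one_mul, Complex.norm_real, Real.norm_eq_abs,
      abs_of_pos (Real.exp_pos _), ← Real.exp_add]
    apply Real.exp_le_exp.mpr
    have hq' : |q.2| < Y := hq
    have h1 : (q.2 - 1 / 2) ^ 2 ≤ (Y + 1 / 2) ^ 2 := by
      have := abs_lt.mp hq'
      nlinarith
    have h2 : (n : ℝ) ^ 2 / 2 - (q.2 - 1 / 2) ^ 2 ≤ (q.2 - 1 / 2 - n) ^ 2 := by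
      nlinarith [sq_nonneg ((n : ℝ) - 2 * (q.2 - 1 / 2))]
    have h3 : (n : ℝ) ^ 2 / 2 - (Y + 1 / 2) ^ 2 ≤ (q.2 - 1 / 2 - n) ^ 2 := by linarith
    have h4 : Real.pi * (((n : ℝ) ^ 2 / 2 - (Y + 1 / 2) ^ 2) / σ ^ 2) ≤
        Real.pi * ((q.2 - 1 / 2 - n) ^ 2 / σ ^ 2) := by gcongr
    have h5 : -Real.pi * ((q.2 - 1 / 2 - n) / σ) ^ 2 =
        -(Real.pi * ((q.2 - 1 / 2 - n) ^ 2 / σ ^ 2)) := by rw [div_pow]; ring
    rw [h5]
    have h6 : Real.pi * (Y + 1 / 2) ^ 2 / σ ^ 2 + -(Real.pi * (n : ℝ) ^ 2 / (2 * σ ^ 2)) =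
        -(Real.pi * (((n : ℝ) ^ 2 / 2 - (Y + 1 / 2) ^ 2) / σ ^ 2)) := by
      field_simp
      ring
    rw [h6]
    linarith

theorem cont_T (k P : ℕ) (σ : ℝ) (hσ : 0 < σ) :
    Continuous (fun p : ℝ × ℝ => T k P σ p.1 p.2) := by
  unfold T
  refine continuous_finsetSum _ fun x _ => ?_
  exact (cont_rho σ hσ).comp (f := fun p : ℝ × ℝ => (p.1, ((x : ℝ) + p.2) ^ k)) (by fun_prop)

theorem cont_S (k P : ℕ) : Continuous (fun p : ℝ × ℝ => S k P p.1 p.2) := by
  unfold S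
  refine continuous_finsetSum _ fun x _ => ?_
  exact cont_e.comp (f := fun p : ℝ × ℝ => p.1 * ((x : ℝ) + p.2) ^ k) (by fun_prop)

theorem cont_aa (σ : ℝ) : Continuous (fun t : ℝ => aa σ t) := by
  unfold aa
  refine Continuous.mul (Complex.continuous_ofReal.comp (by fun_prop)) ?_
  exact cont_e.comp (by fun_prop)

theorem norm_S (k P : ℕ) (t θ : ℝ) : ‖S k P t θ‖ ≤ 3 * P := by
  unfold S
  refine (norm_sum_le _ _).trans ?_
  simp_rw [norm_e]
  rw [sum_const, Nat.card_Ico, nsmul_eq_mul, mul_one]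
  have : 4 * P - P = 3 * P := by omega
  rw [this]
  push_cast
  exact le_rfl

theorem norm_aa (σ t : ℝ) (h0 : 0 < σ) (h1 : σ ≤ 1) : ‖aa σ t‖ ≤ 1 := by
  unfold aa
  rw [norm_mul, norm_e, mul_one, Complex.norm_real, Real.norm_eq_abs,
    abs_of_pos (mul_pos h0 (Real.exp_pos _))]
  have h2 : Real.exp (-Real.pi * (σ * t) ^ 2) ≤ 1 := by
    rw [Real.exp_le_one_iff]
    nlinarith [Real.pi_pos, sq_nonneg (σ * t), mul_nonneg Real.pi_pos.le (sq_nonneg (σ * t))]
  calc σ * Real.exp (-Real.pi * (σ * t) ^ 2) ≤ 1 * 1 := by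
        gcongr
    _ = 1 := one_mul 1

/-- the bound for one frequency, abstractly -/
theorem freq (P k n : ℕ) (hP : 1 ≤ P) (hk : 2 ≤ k) (hn : 4 ≤ n) (A D L t : ℝ) (hD : 0 ≤ D)
    (hL : 0 ≤ L) (hA1 : A ≤ 9 * (P : ℝ) ^ 2)
    (hA2 : t ≠ 0 → A ≤ 3 * P + L / (|t| * (P : ℝ) ^ (k - 2))) :
    (Real.sqrt A + Real.sqrt (D * P)) ^ n ≤
      2 ^ (n - 1) * ((Real.sqrt 3 + Real.sqrt D) ^ n * Real.sqrt P ^ n +
        3 ^ (n - 4) * (P : ℝ) ^ n * (81 + L ^ 2) * (1 + ((P : ℝ) ^ k * t) ^ 2)⁻¹) := by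
  have hP0 : (0 : ℝ) < P := by exact_mod_cast hP
  set m : ℝ := max (A - 3 * P) 0 with hm
  have hm0 : 0 ≤ m := le_max_right _ _
  have hm1 : m ≤ 9 * (P : ℝ) ^ 2 := by
    apply max_le
    · linarith
    · positivity
  have hm2 : m * |t| * (P : ℝ) ^ k ≤ L * (P : ℝ) ^ 2 := by
    by_cases ht : t = 0
    · rw [ht, abs_zero, mul_zero, zero_mul]
      positivity
    · have ht0 : 0 < |t| := abs_pos.mpr ht
      have h1 : m ≤ L / (|t| * (P : ℝ) ^ (k - 2)) := by
        apply max_le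
        · linarith [hA2 ht]
        · positivity
      have h2 : (P : ℝ) ^ k = (P : ℝ) ^ (k - 2) * (P : ℝ) ^ 2 := by
        rw [← pow_add]
        congr 1
        omega
      have h3 : m * (|t| * (P : ℝ) ^ (k - 2)) ≤ L := by
        rwa [le_div_iff₀ (by positivity)] at h1
      calc m * |t| * (P : ℝ) ^ k = (m * (|t| * (P : ℝ) ^ (k - 2))) * (P : ℝ) ^ 2 := by
            rw [h2]; ring
        _ ≤ L * (P : ℝ) ^ 2 := by gcongr
  have hA3 : A ≤ 3 * P + m := by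
    have := le_max_left (A - 3 * P) 0
    linarith
  have hsA : Real.sqrt A ≤ Real.sqrt (3 * P) + Real.sqrt m := by
    refine (Real.sqrt_le_sqrt hA3).trans ?_
    apply Real.sqrt_le_iff.mpr
    refine ⟨by positivity, ?_⟩
    have q1 : Real.sqrt (3 * P) ^ 2 = 3 * P := Real.sq_sqrt (by positivity)
    have q2 : Real.sqrt m ^ 2 = m := Real.sq_sqrt hm0
    have q3 : 0 ≤ Real.sqrt (3 * P) * Real.sqrt m := by positivity
    nlinarith
  have e1 : Real.sqrt (3 * P) = Real.sqrt 3 * Real.sqrt P := Real.sqrt_mul (by norm_num) _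
  have e2 : Real.sqrt (D * P) = Real.sqrt D * Real.sqrt P := Real.sqrt_mul hD _
  set a : ℝ := (Real.sqrt 3 + Real.sqrt D) * Real.sqrt P with ha
  have ha0 : 0 ≤ a := by positivity
  have h4 : Real.sqrt A + Real.sqrt (D * P) ≤ a + Real.sqrt m := by
    rw [e2, ha]
    rw [e1] at hsA
    nlinarith
  have h5 : (Real.sqrt A + Real.sqrt (D * P)) ^ n ≤ (a + Real.sqrt m) ^ n :=
    pow_le_pow_left₀ (by positivity) h4 n
  have h6 : (a + Real.sqrt m) ^ n ≤ 2 ^ (n - 1) * (a ^ n + Real.sqrt m ^ n) :=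
    add_pow_le ha0 (Real.sqrt_nonneg _) n
  have hsm : Real.sqrt m ≤ 3 * P := by
    apply Real.sqrt_le_iff.mpr
    refine ⟨by positivity, ?_⟩
    nlinarith
  have hden : 0 < 1 + ((P : ℝ) ^ k * t) ^ 2 := by positivity
  have h7 : m ^ 2 ≤ (P : ℝ) ^ 4 * (81 + L ^ 2) * (1 + ((P : ℝ) ^ k * t) ^ 2)⁻¹ := by
    rw [← div_eq_mul_inv, le_div_iff₀ hden]
    have q1 : m ^ 2 ≤ (9 * (P : ℝ) ^ 2) ^ 2 := pow_le_pow_left₀ hm0 hm1 2
    have q2 : (m * |t| * (P : ℝ) ^ k) ^ 2 ≤ (L * (P : ℝ) ^ 2) ^ 2 :=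
      pow_le_pow_left₀ (by positivity) hm2 2
    have q3 : (m * |t| * (P : ℝ) ^ k) ^ 2 = m ^ 2 * ((P : ℝ) ^ k * t) ^ 2 := by
      rw [mul_pow, mul_pow, sq_abs]
      ring
    rw [q3] at q2
    nlinarith
  have h8 : Real.sqrt m ^ n ≤
      3 ^ (n - 4) * (P : ℝ) ^ n * (81 + L ^ 2) * (1 + ((P : ℝ) ^ k * t) ^ 2)⁻¹ := by
    have q1 : Real.sqrt m ^ n = Real.sqrt m ^ (n - 4) * m ^ 2 := by
      have : Real.sqrt m ^ 4 = m ^ 2 := by
        rw [show (4 : ℕ) = 2 * 2 from rfl, pow_mul, Real.sq_sqrt hm0]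
      rw [← this, ← pow_add]
      congr 1
      omega
    have q2 : (P : ℝ) ^ n = (P : ℝ) ^ (n - 4) * (P : ℝ) ^ 4 := by
      rw [← pow_add]
      congr 1
      omega
    rw [q1, q2]
    calc Real.sqrt m ^ (n - 4) * m ^ 2
        ≤ (3 * P) ^ (n - 4) * ((P : ℝ) ^ 4 * (81 + L ^ 2) * (1 + ((P : ℝ) ^ k * t) ^ 2)⁻¹) := by
          gcongr
      _ = _ := by rw [mul_pow]; ring
  refine h5.trans (h6.trans ?_)
  have h9 : a ^ n = (Real.sqrt 3 + Real.sqrt D) ^ n * Real.sqrt P ^ n := by rw [ha, mul_pow]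
  exact mul_le_mul_of_nonneg_left (add_le_add (le_of_eq h9) h8) (by positivity)

theorem int_inv (a : ℝ) (ha : 0 < a) :
    ∫ t in (-(1 / 2) : ℝ)..(1 / 2), (1 + (a * t) ^ 2)⁻¹ ≤ Real.pi / a := by
  have h := intervalIntegral.integral_comp_mul_left (a := (-(1 / 2) : ℝ)) (b := 1 / 2)
    (fun x : ℝ => (1 + x ^ 2)⁻¹) ha.ne'
  rw [h, integral_inv_one_add_sq, smul_eq_mul]
  have h1 := Real.arctan_lt_pi_div_two (a * (1 / 2))
  have h2 := Real.neg_pi_div_two_lt_arctan (a * (-(1 / 2)))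
  rw [div_eq_inv_mul Real.pi a]
  have h3 : Real.arctan (a * (1 / 2)) - Real.arctan (a * (-(1 / 2))) ≤ Real.pi := by linarith
  exact mul_le_mul_of_nonneg_left h3 (inv_nonneg.mpr ha.le)

theorem log_bound (P : ℕ) (hP : 1 ≤ P) :
    81 + (1 + Real.log (3 * P)) ^ 2 ≤ 706 * (P : ℝ) ^ (1 / 4 : ℝ) := by
  have hP0 : (1 : ℝ) ≤ P := by exact_mod_cast hP
  have h1 : Real.log (3 * P) ≤ (3 * P : ℝ) ^ (1 / 8 : ℝ) / (1 / 8) :=
    Real.log_le_rpow_div (by positivity) (by norm_num)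
  have h2 : (3 * P : ℝ) ^ (1 / 8 : ℝ) = (3 : ℝ) ^ (1 / 8 : ℝ) * (P : ℝ) ^ (1 / 8 : ℝ) :=
    Real.mul_rpow (by norm_num) (by positivity)
  have h3 : (3 : ℝ) ^ (1 / 8 : ℝ) ≤ 3 := by
    calc (3 : ℝ) ^ (1 / 8 : ℝ) ≤ (3 : ℝ) ^ (1 : ℝ) :=
          Real.rpow_le_rpow_of_exponent_le (by norm_num) (by norm_num)
      _ = 3 := Real.rpow_one 3
  set q : ℝ := (P : ℝ) ^ (1 / 8 : ℝ) with hq
  have hq1 : 1 ≤ q := Real.one_le_rpow hP0 (by norm_num)
  have hq2 : (P : ℝ) ^ (1 / 4 : ℝ) = q ^ 2 := by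
    rw [hq, ← Real.rpow_natCast, ← Real.rpow_mul (by positivity)]
    norm_num
  have hl0 : 0 ≤ Real.log (3 * P) := Real.log_nonneg (by linarith)
  have h4 : 1 + Real.log (3 * P) ≤ 25 * q := by
    rw [h2] at h1
    have : (3 : ℝ) ^ (1 / 8 : ℝ) * q / (1 / 8) ≤ 24 * q := by
      have := mul_le_mul_of_nonneg_right h3 (by linarith : 0 ≤ q)
      linarith
    linarith
  rw [hq2]
  have h5 : (1 + Real.log (3 * P)) ^ 2 ≤ (25 * q) ^ 2 := pow_le_pow_left₀ (by linarith) h4 2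
  nlinarith

theorem t_E2 (h1 : S_L2R) (h2 : S_SQ) : S_E2 := by
  intro k s hk hs
  obtain ⟨D, hD, hLD⟩ := h1 k hk
  set n := s - 1 with hn
  have hn4 : 4 ≤ n := by omega
  set K0 : ℝ := s * Real.sqrt D * 2 ^ (n - 1) with hK0
  have hK0p : 0 ≤ K0 := by positivity
  set c1 : ℝ := (Real.sqrt 3 + Real.sqrt D) ^ n with hc1
  have hc1p : 0 ≤ c1 := by positivity
  refine ⟨K0 * c1 + K0 * 3 ^ (n - 4) * 706 * Real.pi + 1, by positivity, ?_⟩
  intro P σ hP hσ hσ1
  have hP0 : (0 : ℝ) < P := by exact_mod_cast hP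
  have hP1 : (1 : ℝ) ≤ P := by exact_mod_cast hP
  set L : ℝ := 1 + Real.log (3 * P) with hL
  have hL0 : 0 ≤ L := by
    have : 0 ≤ Real.log (3 * P) := Real.log_nonneg (by linarith)
    linarith
  -- the function
  set F : (Fin s → ℝ) → ℝ → ℝ := fun θ t =>
    ‖(∏ i, T k P σ t (θ i)) - aa σ t ^ s * ∏ i, S k P t (θ i)‖ with hF
  have cT : Continuous (fun p : (Fin s → ℝ) × ℝ => ∏ i, T k P σ p.2 (p.1 i)) := by
    refine continuous_finsetProd _ fun i _ => ?_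
    exact (cont_T k P σ hσ).comp (f := fun p : (Fin s → ℝ) × ℝ => (p.2, p.1 i)) (by fun_prop)
  have cS : Continuous (fun p : (Fin s → ℝ) × ℝ => ∏ i, S k P p.2 (p.1 i)) := by
    refine continuous_finsetProd _ fun i _ => ?_
    exact (cont_S k P).comp (f := fun p : (Fin s → ℝ) × ℝ => (p.2, p.1 i)) (by fun_prop)
  have cF : Continuous (Function.uncurry F) := by
    have ca : Continuous (fun p : (Fin s → ℝ) × ℝ => aa σ p.2 ^ s) :=
      ((cont_aa σ).comp continuous_snd).pow s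
    exact (cT.sub (ca.mul cS)).norm
  have hcm : MeasurableSet (cube s) := MeasurableSet.univ_pi (fun _ => measurableSet_Icc)
  have hcc : IsCompact (cube s) := isCompact_univ_pi (fun _ => isCompact_Icc)
  have hint : Integrable (Function.uncurry F) (((volume : Measure (Fin s → ℝ)).restrict
      (cube s)).prod ((volume : Measure ℝ).restrict (Set.Ioc (-(1 / 2)) (1 / 2)))) := by
    rw [Measure.prod_restrict]
    have : IntegrableOn (Function.uncurry F) (cube s ×ˢ Set.Icc (-(1 / 2) : ℝ) (1 / 2))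
        ((volume : Measure (Fin s → ℝ)).prod (volume : Measure ℝ)) :=
      cF.continuousOn.integrableOn_compact (hcc.prod isCompact_Icc)
    exact this.mono_set (Set.prod_mono le_rfl Set.Ioc_subset_Icc_self)
  have hle : (-(1 / 2) : ℝ) ≤ 1 / 2 := by norm_num
  have hI : (fun θ : Fin s → ℝ => ∫ t in (-(1 / 2) : ℝ)..(1 / 2),
      ‖(∏ i, T k P σ t (θ i)) - aa σ t ^ s * ∏ i, S k P t (θ i)‖) =
      fun θ => ∫ t in Set.Ioc (-(1 / 2) : ℝ) (1 / 2), F θ t := by
    funext θ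
    rw [intervalIntegral.integral_of_le hle]
  rw [hI]
  refine ⟨hint.integral_prod_left, ?_⟩
  rw [integral_integral_swap hint]
  -- the bound for one frequency
  have hfreq : ∀ t ∈ Set.Ioc (-(1 / 2) : ℝ) (1 / 2), ∫ θ in cube s, F θ t ≤
      K0 * c1 * Real.sqrt P ^ s + K0 * 3 ^ (n - 4) * (81 + L ^ 2) * (Real.sqrt P * (P : ℝ) ^ n) *
        (1 + ((P : ℝ) ^ k * t) ^ 2)⁻¹ := by
    intro t ht
    have ht2 : |t| ≤ 1 / 2 := abs_le.mpr ⟨ht.1.le, ht.2⟩
    have cTt : Continuous (fun x : ℝ => T k P σ t x) :=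
      (cont_T k P σ hσ).comp (f := fun x : ℝ => (t, x)) (by fun_prop)
    have cSt : Continuous (fun x : ℝ => S k P t x) :=
      (cont_S k P).comp (f := fun x : ℝ => (t, x)) (by fun_prop)
    set A : ℝ := ∫ x in (0 : ℝ)..1, ‖S k P t x‖ ^ 2 with hA
    have hA0 : 0 ≤ A := intervalIntegral.integral_nonneg zero_le_one (fun x _ => sq_nonneg _)
    have hA1 : A ≤ 9 * (P : ℝ) ^ 2 := by
      have : A ≤ ∫ x in (0 : ℝ)..1, (9 * (P : ℝ) ^ 2) := by
        refine intervalIntegral.integral_mono_on zero_le_one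
          ((cSt.norm.pow 2).intervalIntegrable _ _) (continuous_const.intervalIntegrable _ _) ?_
        intro x _
        have := norm_S k P t x
        nlinarith [norm_nonneg (S k P t x)]
      rw [intervalIntegral.integral_const] at this
      simpa using this
    have hA2 : t ≠ 0 → A ≤ 3 * P + L / (|t| * (P : ℝ) ^ (k - 2)) := fun h => h2 k P t hk hP h
    have hA3 : ∫ x in (0 : ℝ)..1, ‖aa σ t * S k P t x‖ ^ 2 ≤ A := by
      refine intervalIntegral.integral_mono_on zero_le_one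
        (((continuous_const.mul cSt).norm.pow 2).intervalIntegrable _ _)
        ((cSt.norm.pow 2).intervalIntegrable _ _) ?_
      intro x _
      have q1 : ‖aa σ t * S k P t x‖ ≤ ‖S k P t x‖ := by
        rw [norm_mul]
        exact mul_le_of_le_one_left (norm_nonneg _) (norm_aa σ t hσ hσ1)
      exact pow_le_pow_left₀ (norm_nonneg _) q1 2
    have hav := avg s (fun x => T k P σ t x) (fun x => aa σ t * S k P t x) cTt
      (continuous_const.mul cSt) (D * P) A (hLD P σ t hP hσ hσ1 ht2).2 hA3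
    have e1 : ∫ θ in cube s, F θ t =
        ∫ θ in cube s, ‖∏ i, T k P σ t (θ i) - ∏ i, aa σ t * S k P t (θ i)‖ := by
      refine integral_congr_ae (Filter.Eventually.of_forall fun θ => ?_)
      simp only [hF]
      rw [prod_mul_distrib, prod_const, card_univ, Fintype.card_fin]
    rw [e1]
    refine hav.trans ?_
    have hfr := freq P k n hP hk hn4 A D L t hD.le hL0 hA1 hA2
    rw [← hn]
    have e2 : Real.sqrt (D * P) = Real.sqrt D * Real.sqrt P := Real.sqrt_mul hD.le _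
    have e3 : Real.sqrt P ^ s = Real.sqrt P * Real.sqrt P ^ n := by
      rw [← pow_succ']
      congr 1
      omega
    calc (s : ℝ) * Real.sqrt (D * P) * (Real.sqrt A + Real.sqrt (D * P)) ^ n
        ≤ (s : ℝ) * Real.sqrt (D * P) * (2 ^ (n - 1) * ((Real.sqrt 3 + Real.sqrt D) ^ n *
          Real.sqrt P ^ n + 3 ^ (n - 4) * (P : ℝ) ^ n * (81 + L ^ 2) *
            (1 + ((P : ℝ) ^ k * t) ^ 2)⁻¹)) := by gcongr
      _ = _ := by rw [e2, e3, hK0, hc1]; ring
  have hG : Continuous (fun t : ℝ => K0 * c1 * Real.sqrt P ^ s +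
      K0 * 3 ^ (n - 4) * (81 + L ^ 2) * (Real.sqrt P * (P : ℝ) ^ n) *
        (1 + ((P : ℝ) ^ k * t) ^ 2)⁻¹) := by
    refine continuous_const.add (continuous_const.mul ?_)
    refine Continuous.inv₀ (by fun_prop) (fun t => ?_)
    positivity
  have h3 : ∫ t in Set.Ioc (-(1 / 2) : ℝ) (1 / 2), ∫ θ in cube s, F θ t ≤
      ∫ t in Set.Ioc (-(1 / 2) : ℝ) (1 / 2), (K0 * c1 * Real.sqrt P ^ s +
      K0 * 3 ^ (n - 4) * (81 + L ^ 2) * (Real.sqrt P * (P : ℝ) ^ n) *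
        (1 + ((P : ℝ) ^ k * t) ^ 2)⁻¹) := by
    refine setIntegral_mono_on hint.integral_prod_right ?_ measurableSet_Ioc hfreq
    exact (hG.integrableOn_Icc).mono_set Set.Ioc_subset_Icc_self
  refine h3.trans ?_
  rw [← intervalIntegral.integral_of_le hle, intervalIntegral.integral_add
    (continuous_const.intervalIntegrable _ _), intervalIntegral.integral_const,
    intervalIntegral.integral_const_mul]
  swap
  · refine Continuous.intervalIntegrable (continuous_const.mul ?_) _ _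
    refine Continuous.inv₀ (by fun_prop) (fun t => ?_)
    positivity
  have h4 := int_inv ((P : ℝ) ^ k) (by positivity)
  have h5 := log_bound P hP
  have e4 : Real.sqrt P ^ s = (P : ℝ) ^ ((s : ℝ) / 2) := by
    rw [Real.sqrt_eq_rpow, ← Real.rpow_natCast, ← Real.rpow_mul (by positivity)]
    congr 1
    ring
  have e5 : (P : ℝ) ^ (1 / 4 : ℝ) * (Real.sqrt P * (P : ℝ) ^ n) / (P : ℝ) ^ k =
      (P : ℝ) ^ ((s : ℝ) - k - 1 / 4) := by
    rw [Real.sqrt_eq_rpow, ← Real.rpow_natCast, ← Real.rpow_natCast, ← Real.rpow_add hP0,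
      ← Real.rpow_add hP0, ← Real.rpow_sub hP0]
    congr 1
    have : (n : ℝ) = s - 1 := by
      rw [hn, Nat.cast_sub (by omega)]
      simp
    rw [this]
    ring
  have hx0 : 0 ≤ (P : ℝ) ^ ((s : ℝ) - k - 1 / 4) := by positivity
  have hy0 : 0 ≤ (P : ℝ) ^ ((s : ℝ) / 2) := by positivity
  have hint0 : 0 ≤ ∫ t in (-(1 / 2) : ℝ)..(1 / 2), (1 + ((P : ℝ) ^ k * t) ^ 2)⁻¹ :=
    intervalIntegral.integral_nonneg hle (fun t _ => by positivity)
  have h6 : K0 * 3 ^ (n - 4) * (81 + L ^ 2) * (Real.sqrt P * (P : ℝ) ^ n) *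
      ∫ t in (-(1 / 2) : ℝ)..(1 / 2), (1 + ((P : ℝ) ^ k * t) ^ 2)⁻¹ ≤
      K0 * 3 ^ (n - 4) * 706 * Real.pi * (P : ℝ) ^ ((s : ℝ) - k - 1 / 4) := by
    calc K0 * 3 ^ (n - 4) * (81 + L ^ 2) * (Real.sqrt P * (P : ℝ) ^ n) *
        ∫ t in (-(1 / 2) : ℝ)..(1 / 2), (1 + ((P : ℝ) ^ k * t) ^ 2)⁻¹
        ≤ K0 * 3 ^ (n - 4) * (706 * (P : ℝ) ^ (1 / 4 : ℝ)) * (Real.sqrt P * (P : ℝ) ^ n) *
          (Real.pi / (P : ℝ) ^ k) := by
          gcongr
      _ = K0 * 3 ^ (n - 4) * 706 * Real.pi *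
          ((P : ℝ) ^ (1 / 4 : ℝ) * (Real.sqrt P * (P : ℝ) ^ n) / (P : ℝ) ^ k) := by ring
      _ = _ := by rw [e5]
  have h7 : (1 / 2 - -(1 / 2) : ℝ) • (K0 * c1 * Real.sqrt P ^ s) =
      K0 * c1 * (P : ℝ) ^ ((s : ℝ) / 2) := by
    rw [e4, smul_eq_mul]
    ring
  rw [h7]
  have w1 : 0 ≤ K0 * c1 := by positivity
  have w2 : 0 ≤ K0 * 3 ^ (n - 4) * 706 * Real.pi := by positivity
  nlinarith [mul_nonneg w1 hx0, mul_nonneg w2 hy0]

end Pool.Agent.W490.WT
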