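import Pool.Agent.W203.WS.Stm2

/-! The main term. helper308, for helper203. -/

set_option autoImplicit false

open MeasureTheory Finset

namespace Pool.Agent.W308.WT

open Pool.Agent.W203.WS

theorem norm_e (x : ℝ) : ‖e x‖ = 1 := by
  unfold e
  have : (2 * (Real.pi : ℂ) * Complex.I * (x : ℂ)) = ((2 * Real.pi * x : ℝ) : ℂ) * Complex.I := by
    push_cast
    ring
  rw [this, Complex.norm_exp_ofReal_mul_I]

theorem e_add (x y : ℝ) : e (x + y) = e x * e y := by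
  unfold e
  rw [← Complex.exp_add]
  congr 1
  push_cast
  ring

theorem e_pow (x : ℝ) (n : ℕ) : e x ^ n = e (n * x) := by
  unfold e
  rw [← Complex.exp_nat_mul]
  congr 1
  push_cast
  ring

theorem e_sum {ι : Type} (s : Finset ι) (f : ι → ℝ) : e (∑ i ∈ s, f i) = ∏ i ∈ s, e (f i) := by
  unfold e
  rw [← Complex.exp_sum]
  congr 1
  push_cast
  rw [Finset.mul_sum]

theorem cont_e : Continuous e := by
  unfold e
  fun_prop

theorem kh_nonneg {ε : ℝ} (hε : 0 < ε) (t : ℝ) : 0 ≤ Kh ε t := by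
  unfold Kh
  positivity

theorem kh_int {ε : ℝ} (hε : 0 < ε) : Integrable (fun t => Kh ε t) := by
  have h := (integrable_exp_neg_mul_sq (b := Real.pi * ε ^ 2) (by positivity)).const_mul ε
  refine h.congr (Filter.Eventually.of_forall fun t => ?_)
  show ε * _ = ε * _
  congr 2
  ring

theorem gauss {ε : ℝ} (hε : 0 < ε) (x : ℝ) :
    ∫ t : ℝ, (Kh ε t : ℂ) * e (t * x) = (Kr ε x : ℂ) := by
  have hb : 0 < ((Real.pi * ε ^ 2 : ℝ) : ℂ).re := by
    rw [Complex.ofReal_re]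
    positivity
  have hεc : (ε : ℂ) ≠ 0 := by exact_mod_cast hε.ne'
  have hpi : (Real.pi : ℂ) ≠ 0 := by exact_mod_cast Real.pi_ne_zero
  have h := fourierIntegral_gaussian hb ((2 * Real.pi * x : ℝ) : ℂ)
  have h1 : ∀ t : ℝ, (Kh ε t : ℂ) * e (t * x) = (ε : ℂ) *
      (Complex.exp (Complex.I * ((2 * Real.pi * x : ℝ) : ℂ) * t) *
        Complex.exp (-((Real.pi * ε ^ 2 : ℝ) : ℂ) * (t : ℂ) ^ 2)) := by
    intro t
    unfold Kh e
    push_cast
    rw [mul_assoc, ← Complex.exp_add, ← Complex.exp_add]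
    congr 2
    ring
  have h2 : ((Real.pi : ℂ) / ((Real.pi * ε ^ 2 : ℝ) : ℂ)) ^ (1 / 2 : ℂ) = ((1 / ε : ℝ) : ℂ) := by
    have h3 : (Real.pi : ℂ) / ((Real.pi * ε ^ 2 : ℝ) : ℂ) = (((1 / ε) ^ 2 : ℝ) : ℂ) := by
      push_cast
      field_simp
    have h4 : (1 / 2 : ℂ) = ((1 / 2 : ℝ) : ℂ) := by
      push_cast
      rfl
    rw [h3, h4, ← Complex.ofReal_cpow (by positivity)]
    congr 1
    rw [← Real.sqrt_eq_rpow, Real.sqrt_sq (by positivity)]
  simp only [h1]
  rw [integral_const_mul, h, h2]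
  unfold Kr
  push_cast
  rw [← mul_assoc, mul_one_div_cancel hεc, one_mul]
  congr 1
  field_simp
  ring

theorem fub (k s P : ℕ) {ε : ℝ} (hε : 0 < ε) (M : ℝ) :
    ((Jm k s P ε M : ℝ) : ℂ) = ∫ t : ℝ, (Kh ε t : ℂ) * (e (-(t * M)) * J1 k P t ^ s) ∧
    Integrable (fun t : ℝ => (Kh ε t : ℂ) * (e (-(t * M)) * J1 k P t ^ s)) := by
  set B : Set (Fin s → ℝ) := Set.pi Set.univ (fun _ : Fin s => Set.Icc (P : ℝ) (4 * P)) with hB
  have hBf : volume B < ⊤ := (isCompact_univ_pi fun _ => isCompact_Icc).measure_lt_top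
  have : IsFiniteMeasure ((volume : Measure (Fin s → ℝ)).restrict B) :=
    ⟨by rw [Measure.restrict_apply_univ]; exact hBf⟩
  let G : ℝ → (Fin s → ℝ) → ℂ := fun t u => (Kh ε t : ℂ) * e (t * ((∑ i, u i ^ k) - M))
  have hG : Integrable (Function.uncurry G)
      ((volume : Measure ℝ).prod ((volume : Measure (Fin s → ℝ)).restrict B)) := by
    have h1 : Integrable (fun z : ℝ × (Fin s → ℝ) => Kh ε z.1 * (1 : ℝ))
        ((volume : Measure ℝ).prod ((volume : Measure (Fin s → ℝ)).restrict B)) :=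
      (kh_int hε).mul_prod (integrable_const (1 : ℝ))
    refine h1.mono' ?_ (Filter.Eventually.of_forall fun z => ?_)
    · apply Continuous.aestronglyMeasurable
      show Continuous fun z : ℝ × (Fin s → ℝ) =>
        (Kh ε z.1 : ℂ) * e (z.1 * ((∑ i, z.2 i ^ k) - M))
      refine Continuous.mul ?_ (cont_e.comp (by fun_prop))
      unfold Kh
      fun_prop
    · show ‖(Kh ε z.1 : ℂ) * e _‖ ≤ _
      rw [norm_mul, norm_e, Complex.norm_real, Real.norm_of_nonneg (kh_nonneg hε _)]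
  have hin : ∀ t, ∫ u in B, G t u = (Kh ε t : ℂ) * (e (-(t * M)) * J1 k P t ^ s) := by
    intro t
    have h1 : ∀ u : Fin s → ℝ, G t u =
        ((Kh ε t : ℂ) * e (-(t * M))) * ∏ i, e (t * u i ^ k) := by
      intro u
      show (Kh ε t : ℂ) * e (t * ((∑ i, u i ^ k) - M)) = _
      have h2 : t * ((∑ i, u i ^ k) - M) = -(t * M) + ∑ i, t * u i ^ k := by
        rw [mul_sub, mul_sum]
        ring
      rw [h2, e_add, e_sum, mul_assoc]
    simp only [h1]
    rw [integral_const_mul, mul_assoc]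
    congr 2
    rw [hB, volume_pi, Measure.restrict_pi_pi,
      integral_fintype_prod_eq_prod (fun (_ : Fin s) (x : ℝ) => e (t * x ^ k))]
    rw [prod_const, card_univ, Fintype.card_fin]
    congr 1
    unfold J1
    rw [intervalIntegral.integral_of_le (by nlinarith [(Nat.cast_nonneg P : (0 : ℝ) ≤ P)]),
      integral_Icc_eq_integral_Ioc]
  constructor
  · unfold Jm
    rw [← hB]
    have h1 : ((∫ u in B, Kr ε ((∑ i, u i ^ k) - M) : ℝ) : ℂ) =
        ∫ u in B, ((Kr ε ((∑ i, u i ^ k) - M) : ℝ) : ℂ) := integral_ofReal.symm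
    rw [h1]
    simp only [← gauss hε]
    rw [← integral_integral_swap hG]
    exact integral_congr_ae (Filter.Eventually.of_forall hin)
  · refine hG.integral_prod_left.congr (Filter.Eventually.of_forall fun t => ?_)
    exact hin t

theorem t_MT (h1 : S_IB) (h2 : S_JL) : S_MT := by
  intro k s hk hs
  obtain ⟨c, hc, hJ⟩ := h2 k s (by omega) (by omega)
  refine ⟨c, 5 * 2 ^ s * Real.pi, hc, by positivity, ?_⟩
  intro P σ N hP hσ hσs hM1 hM2
  have hs' : (5 : ℝ) ≤ s := by exact_mod_cast hs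
  have hσ1 : σ ≤ 1 := by nlinarith
  have hsp : 0 < Real.sqrt s := Real.sqrt_pos.2 (by linarith)
  have hsq2 : Real.sqrt s ^ 2 = s := Real.sq_sqrt (by linarith)
  have hsq : Real.sqrt s ≤ s := by
    have h3 : 1 ≤ Real.sqrt s := by
      rw [Real.one_le_sqrt]
      linarith
    nlinarith
  set ε : ℝ := σ * Real.sqrt s with hεd
  have hε : 0 < ε := mul_pos hσ hsp
  have hε1 : ε ≤ 1 := le_trans (mul_le_mul_of_nonneg_left hsq hσ.le) hσs
  set M : ℝ := (N : ℝ) + s / 2 with hM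
  have hJM := hJ P ε M hP hε hε1 hM1 hM2
  obtain ⟨hf1, hf2⟩ := fub k s P hε M
  let f : ℝ → ℂ := fun t => e (-(t * N)) * (aa σ t ^ s * J1 k P t ^ s)
  have hf : ∀ t, f t = ((σ ^ s / ε : ℝ) : ℂ) *
      ((Kh ε t : ℂ) * (e (-(t * M)) * J1 k P t ^ s)) := by
    intro t
    have h3 : aa σ t ^ s = ((σ ^ s / ε : ℝ) : ℂ) * (Kh ε t : ℂ) * e (-(s * (t / 2))) := by
      unfold aa
      rw [mul_pow, e_pow, ← Complex.ofReal_pow, ← Complex.ofReal_mul, mul_neg]
      congr 2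
      unfold Kh
      rw [mul_pow, ← Real.exp_nat_mul]
      have h4 : (s : ℝ) * (-Real.pi * (σ * t) ^ 2) = -Real.pi * (ε * t) ^ 2 := by
        rw [hεd, mul_pow, mul_pow, mul_pow, hsq2]
        ring
      rw [h4]
      field_simp
    have h5 : e (-(t * M)) = e (-(t * N)) * e (-(s * (t / 2))) := by
      rw [← e_add]
      congr 1
      rw [hM]
      ring
    show e (-(t * N)) * (aa σ t ^ s * J1 k P t ^ s) = _
    rw [h3, h5]
    ring
  have hfi : Integrable f := by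
    refine (hf2.const_mul ((σ ^ s / ε : ℝ) : ℂ)).congr (Filter.Eventually.of_forall fun t => ?_)
    exact (hf t).symm
  have hfull : ∫ t, f t = ((σ ^ s / ε : ℝ) : ℂ) * ((Jm k s P ε M : ℝ) : ℂ) := by
    rw [hf1, ← integral_const_mul]
    exact integral_congr_ae (Filter.Eventually.of_forall hf)
  have hlow : c * σ ^ s * (P : ℝ) ^ ((s : ℝ) - k) ≤ ‖∫ t, f t‖ := by
    rw [hfull, ← Complex.ofReal_mul, Complex.norm_real, Real.norm_eq_abs]
    refine le_trans ?_ (le_abs_self _)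
    have h3 : σ ^ s / ε * (c * ε * (P : ℝ) ^ ((s : ℝ) - k)) = c * σ ^ s * (P : ℝ) ^ ((s : ℝ) - k) := by
      field_simp
    rw [← h3]
    exact mul_le_mul_of_nonneg_left hJM (by positivity)
  set I : Set ℝ := Set.Ioc (-(1 / 2) : ℝ) (1 / 2) with hI
  have hsplit : ∫ t, f t = (∫ t in I, f t) + ∫ t in Iᶜ, f t :=
    (integral_add_compl measurableSet_Ioc hfi).symm
  have hint : Integrable (fun t : ℝ => 5 * 2 ^ s * (1 + t ^ 2)⁻¹) :=
    integrable_inv_one_add_sq.const_mul _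
  have hpt : ∀ t ∈ Iᶜ, ‖f t‖ ≤ 5 * 2 ^ s * (1 + t ^ 2)⁻¹ := by
    intro t ht
    have htabs : 1 / 2 ≤ |t| := by
      by_contra hcon
      rw [not_le, abs_lt] at hcon
      exact ht ⟨hcon.1, hcon.2.le⟩
    have ht0 : t ≠ 0 := by
      intro h0
      rw [h0, abs_zero] at htabs
      norm_num at htabs
    have htp : 0 < |t| := abs_pos.2 ht0
    have hP1 : (1 : ℝ) ≤ P := by exact_mod_cast hP
    have hJ1 : ‖J1 k P t‖ ≤ 1 / |t| := by
      refine ((h1 k P t (by omega) hP).2 ht0).trans ?_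
      apply one_div_le_one_div_of_le htp
      exact le_mul_of_one_le_right htp.le (one_le_pow₀ hP1)
    have haa : ‖aa σ t‖ ≤ 1 := by
      unfold aa
      rw [norm_mul, norm_e, mul_one, Complex.norm_real, Real.norm_of_nonneg (by positivity)]
      have h3 : Real.exp (-Real.pi * (σ * t) ^ 2) ≤ 1 := by
        rw [Real.exp_le_one_iff]
        have : 0 ≤ Real.pi * (σ * t) ^ 2 := by positivity
        linarith
      calc σ * Real.exp (-Real.pi * (σ * t) ^ 2) ≤ 1 * 1 :=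
            mul_le_mul hσ1 h3 (Real.exp_pos _).le zero_le_one
        _ = 1 := one_mul 1
    have h4 : ‖f t‖ ≤ (1 / |t|) ^ s := by
      show ‖e (-(t * N)) * (aa σ t ^ s * J1 k P t ^ s)‖ ≤ _
      rw [norm_mul, norm_e, one_mul, norm_mul, norm_pow, norm_pow]
      calc ‖aa σ t‖ ^ s * ‖J1 k P t‖ ^ s ≤ 1 * (1 / |t|) ^ s := by
            apply mul_le_mul (pow_le_one₀ (norm_nonneg _) haa)
              (pow_le_pow_left₀ (norm_nonneg _) hJ1 s) (by positivity) zero_le_one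
        _ = _ := one_mul _
    have h5 : (1 / |t|) ≤ 2 := by
      rw [div_le_iff₀ htp]
      linarith
    have h6 : (1 / |t|) ^ s ≤ 2 ^ s * (1 / |t|) ^ 2 := by
      obtain ⟨r, rfl⟩ : ∃ r, s = r + 2 := ⟨s - 2, by omega⟩
      rw [pow_add (1 / |t|), pow_add (2 : ℝ)]
      have h7 : (1 / |t|) ^ r ≤ 2 ^ r := pow_le_pow_left₀ (by positivity) h5 r
      have h8 : (0 : ℝ) ≤ 2 ^ r := by positivity
      apply mul_le_mul_of_nonneg_right _ (by positivity)
      nlinarith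
    have ht2 : 1 / 4 ≤ t ^ 2 := by
      rw [← sq_abs]
      nlinarith
    have h9 : (1 / |t|) ^ 2 ≤ 5 * (1 + t ^ 2)⁻¹ := by
      rw [div_pow, one_pow, sq_abs, ← div_eq_mul_inv, div_le_div_iff₀ (by positivity) (by positivity)]
      linarith
    calc ‖f t‖ ≤ (1 / |t|) ^ s := h4
      _ ≤ 2 ^ s * (1 / |t|) ^ 2 := h6
      _ ≤ 2 ^ s * (5 * (1 + t ^ 2)⁻¹) := mul_le_mul_of_nonneg_left h9 (by positivity)
      _ = 5 * 2 ^ s * (1 + t ^ 2)⁻¹ := by ring
  have htail : ‖∫ t in Iᶜ, f t‖ ≤ 5 * 2 ^ s * Real.pi := by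
    have h3 : ‖∫ t in Iᶜ, f t‖ ≤ ∫ t in Iᶜ, 5 * 2 ^ s * (1 + t ^ 2)⁻¹ := by
      apply norm_integral_le_of_norm_le hint.integrableOn
      rw [ae_restrict_iff' measurableSet_Ioc.compl]
      exact Filter.Eventually.of_forall hpt
    have h4 : ∫ t in Iᶜ, 5 * 2 ^ s * (1 + t ^ 2)⁻¹ ≤ ∫ t : ℝ, 5 * 2 ^ s * (1 + t ^ 2)⁻¹ := by
      apply setIntegral_le_integral hint
      exact Filter.Eventually.of_forall fun t => by positivity
    have h5 : ∫ t : ℝ, 5 * 2 ^ s * (1 + t ^ 2)⁻¹ = 5 * 2 ^ s * Real.pi := by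
      rw [integral_const_mul, integral_univ_inv_one_add_sq]
    exact h3.trans (h4.trans h5.le)
  have hival : ∫ t in (-(1 / 2) : ℝ)..(1 / 2), e (-(t * N)) * (aa σ t ^ s * J1 k P t ^ s) =
      ∫ t in I, f t := by
    rw [intervalIntegral.integral_of_le (by norm_num)]
  rw [hival]
  have h10 : ‖∫ t, f t‖ ≤ ‖∫ t in I, f t‖ + ‖∫ t in Iᶜ, f t‖ := by
    rw [hsplit]
    exact norm_add_le _ _
  linarith

end Pool.Agent.W308.WT
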