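import Pool.Agent.W203.WS.Stm2

/-!
# Integer parts of shifted powers: if `N` is not represented then the integral is tiny
-/

set_option autoImplicit false

open MeasureTheory Finset

namespace Pool.Agent.W700.WT.NEAR
open Pool.Agent.W203.WS

theorem e_norm (x : ℝ) : ‖e x‖ = 1 := by
  unfold e
  rw [Complex.norm_exp]
  simp

theorem e_add (x y : ℝ) : e (x + y) = e x * e y := by
  unfold e
  rw [← Complex.exp_add]
  push_cast
  ring_nf

theorem e_zero : e 0 = 1 := by simp [e]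

theorem e_sum {ι : Type*} (S : Finset ι) (f : ι → ℝ) : e (∑ i ∈ S, f i) = ∏ i ∈ S, e (f i) := by
  classical
  induction S using Finset.induction_on with
  | empty => simp [e_zero]
  | insert a S ha ih => rw [Finset.sum_insert ha, Finset.prod_insert ha, e_add, ih]

theorem e_cont : Continuous e := by
  unfold e; fun_prop

theorem int_zero (m : ℤ) (hm : m ≠ 0) : ∫ t in (-(1/2) : ℝ)..(1 / 2), e (t * m) = 0 := by
  have hc : (2 * (Real.pi : ℂ) * Complex.I * (m : ℂ)) ≠ 0 := by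
    have := Complex.two_pi_I_ne_zero
    have h2 : (m : ℂ) ≠ 0 := by exact_mod_cast hm
    exact mul_ne_zero this h2
  have h1 : ∀ t : ℝ, e (t * m) = Complex.exp ((2 * (Real.pi : ℂ) * Complex.I * (m : ℂ)) * t) := by
    intro t
    unfold e
    congr 1
    push_cast
    ring
  simp_rw [h1]
  rw [integral_exp_mul_complex hc]
  have h3 : Complex.exp (2 * (Real.pi : ℂ) * Complex.I * (m : ℂ) * ((1 / 2 : ℝ) : ℂ)) =
      Complex.exp (2 * (Real.pi : ℂ) * Complex.I * (m : ℂ) * ((-(1 / 2) : ℝ) : ℂ)) := by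
    rw [Complex.exp_eq_exp_iff_exists_int]
    refine ⟨m, ?_⟩
    push_cast
    ring
  rw [h3, sub_self, zero_div]

/-- the term -/
noncomputable def q (σ : ℝ) : ℝ := Real.exp (-(Real.pi / (4 * σ ^ 2)))

theorem q_pos (σ : ℝ) : 0 < q σ := Real.exp_pos _

theorem q_le (σ : ℝ) (h0 : 0 < σ) (h1 : σ ≤ 1) : q σ ≤ 1 / 2 := by
  have hpi := Real.pi_gt_three
  have h2 : Real.pi / 4 ≤ Real.pi / (4 * σ ^ 2) := by
    apply div_le_div_of_nonneg_left (by positivity) (by positivity)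
    nlinarith
  have h3 : Real.log 2 ≤ 3 / 4 := by
    have := Real.log_two_lt_d9
    linarith
  have : q σ ≤ Real.exp (-(Real.log 2)) := by
    unfold q
    apply Real.exp_le_exp.mpr
    linarith
  rw [Real.exp_neg, Real.exp_log (by norm_num)] at this
  linarith

theorem Kr_le_one (σ x : ℝ) : Kr σ x ≤ 1 := by
  unfold Kr
  rw [Real.exp_le_one_iff]
  have := Real.pi_pos
  nlinarith [sq_nonneg (x / σ)]

theorem Kr_nonneg (σ x : ℝ) : 0 ≤ Kr σ x := (Real.exp_pos _).le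

theorem Kr_bd (σ y : ℝ) (h0 : 0 < σ) (m : ℤ) :
    Kr σ (y - 1 / 2 - ((⌊y⌋ + m : ℤ) : ℝ)) ≤ q σ ^ m.natAbs := by
  unfold Kr q
  rw [← Real.exp_nat_mul]
  apply Real.exp_le_exp.mpr
  have hpi := Real.pi_pos
  -- |z|² ≥ |m|/4
  have hf1 : (⌊y⌋ : ℝ) ≤ y := Int.floor_le y
  have hf2 : y < ⌊y⌋ + 1 := Int.lt_floor_add_one y
  set z : ℝ := y - 1 / 2 - ((⌊y⌋ + m : ℤ) : ℝ) with hz
  have hz' : z = (y - ⌊y⌋ - 1 / 2) - m := by
    rw [hz]; push_cast; ring
  set w : ℝ := y - ⌊y⌋ - 1 / 2 with hw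
  have hw1 : -(1/2) ≤ w := by rw [hw]; linarith
  have hw2 : w ≤ 1/2 := by rw [hw]; linarith
  have key : (m.natAbs : ℝ) / 4 ≤ z ^ 2 := by
    have habs : ((m.natAbs : ℕ) : ℝ) = |(m : ℝ)| := by
      rw [Nat.cast_natAbs]; push_cast; rfl
    rw [habs]
    rcases eq_or_ne m 0 with hm | hm
    · subst hm
      simp only [Int.cast_zero, abs_zero, zero_div]
      positivity
    · rcases lt_or_gt_of_ne hm with hm | hm
      · have : (m : ℝ) ≤ -1 := by exact_mod_cast (by omega : m ≤ -1)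
        rw [abs_of_neg (by linarith), hz']
        nlinarith
      · have : (1 : ℝ) ≤ m := by exact_mod_cast (by omega : 1 ≤ m)
        rw [abs_of_pos (by linarith), hz']
        nlinarith
  have hs : 0 < σ ^ 2 := by positivity
  have e1 : -Real.pi * (z / σ) ^ 2 = -(Real.pi / σ ^ 2 * z ^ 2) := by
    rw [div_pow]; ring
  have e2 : (m.natAbs : ℝ) * -(Real.pi / (4 * σ ^ 2)) = -(Real.pi / σ ^ 2 * ((m.natAbs : ℝ) / 4)) := by
    field_simp
  rw [e1, e2]
  have : 0 < Real.pi / σ ^ 2 := by positivity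
  have := mul_le_mul_of_nonneg_left key this.le
  linarith

theorem hasSum_B (σ : ℝ) (h0 : 0 < σ) (h1 : σ ≤ 1) :
    HasSum (fun m : ℤ => if m = 0 then (0 : ℝ) else q σ ^ m.natAbs)
      (((1 - q σ)⁻¹ - 1) + q σ * (1 - q σ)⁻¹) := by
  have hq := q_pos σ
  have hq1 := q_le σ h0 h1
  have hg := hasSum_geometric_of_lt_one hq.le (by linarith : q σ < 1)
  apply HasSum.of_nat_of_neg_add_one
  · have h2 := hg.sub (hasSum_ite_eq (0 : ℕ) (1 : ℝ))
    have h3 : (fun n : ℕ => (fun m : ℤ => if m = 0 then (0 : ℝ) else q σ ^ m.natAbs) (n : ℤ)) =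
        fun n : ℕ => q σ ^ n - if n = 0 then 1 else 0 := by
      funext n
      by_cases hn : n = 0
      · simp [hn]
      · simp [hn]
    rw [h3]
    exact h2
  · have h2 := hg.mul_left (q σ)
    have h3 : (fun n : ℕ => (fun m : ℤ => if m = 0 then (0 : ℝ) else q σ ^ m.natAbs)
        (-((n : ℤ) + 1))) = fun n : ℕ => q σ * q σ ^ n := by
      funext n
      have : (-((n : ℤ) + 1)) ≠ 0 := by omega
      have h3 : (-((n : ℤ) + 1)).natAbs = n + 1 := by omega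
      simp only [this, if_false, h3, pow_succ']
    rw [h3]
    exact h2

theorem summable_q (σ : ℝ) (h0 : 0 < σ) (h1 : σ ≤ 1) :
    Summable (fun m : ℤ => q σ ^ m.natAbs) := by
  have h := (hasSum_B σ h0 h1).summable.add (hasSum_ite_eq (0 : ℤ) (1 : ℝ)).summable
  refine h.congr ?_
  intro m
  by_cases hm : m = 0 <;> simp [hm]

theorem term_bd (σ t y : ℝ) (h0 : 0 < σ) (m : ℤ) :
    ‖e (t * ((⌊y⌋ + m : ℤ) : ℝ)) * (Kr σ (y - 1 / 2 - ((⌊y⌋ + m : ℤ) : ℝ)) : ℂ)‖ ≤ q σ ^ m.natAbs := by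
  rw [norm_mul, e_norm, one_mul, Complex.norm_real, Real.norm_of_nonneg (Kr_nonneg _ _)]
  exact Kr_bd σ y h0 m

theorem rho_sub (σ t y : ℝ) (h0 : 0 < σ) (h1 : σ ≤ 1) :
    ‖rho σ t y - e (t * ⌊y⌋) * (Kr σ (y - 1 / 2 - ⌊y⌋) : ℂ)‖ ≤ 4 * q σ := by
  have hq := q_pos σ
  have hq1 := q_le σ h0 h1
  set f : ℤ → ℂ := fun n => e (t * n) * (Kr σ (y - 1 / 2 - n) : ℂ) with hf
  have hr : rho σ t y = ∑' m : ℤ, f (⌊y⌋ + m) := by
    unfold rho
    exact ((Equiv.addLeft ⌊y⌋).tsum_eq f).symm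
  have hs : Summable (fun m : ℤ => f (⌊y⌋ + m)) :=
    Summable.of_norm_bounded (summable_q σ h0 h1) (fun m => term_bd σ t y h0 m)
  have hi := hasSum_ite_eq (0 : ℤ) (f ⌊y⌋)
  have hd : rho σ t y - f ⌊y⌋ = ∑' m : ℤ, (f (⌊y⌋ + m) - if m = 0 then f ⌊y⌋ else 0) := by
    rw [hr, hs.tsum_sub hi.summable, hi.tsum_eq]
  have hb := tsum_of_norm_bounded (f := fun m : ℤ => (f (⌊y⌋ + m) - if m = 0 then f ⌊y⌋ else 0))
    (hasSum_B σ h0 h1) (by
      intro m
      by_cases hm : m = 0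
      · simp [hm]
      · simp only [hm, if_false, sub_zero]
        exact term_bd σ t y h0 m)
  have : rho σ t y - e (t * ⌊y⌋) * (Kr σ (y - 1 / 2 - ⌊y⌋) : ℂ) = rho σ t y - f ⌊y⌋ := rfl
  rw [this, hd]
  refine hb.trans ?_
  have h3 : (1 - q σ)⁻¹ ≤ 2 := by
    rw [inv_le_comm₀ (by linarith) (by norm_num)]
    linarith
  have h4 : (1 - q σ)⁻¹ - 1 = q σ * (1 - q σ)⁻¹ := by
    have : (1 - q σ) ≠ 0 := by linarith
    field_simp
    ring
  rw [h4]
  nlinarith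

theorem rho_cont (σ y : ℝ) (h0 : 0 < σ) (h1 : σ ≤ 1) : Continuous (fun t => rho σ t y) := by
  have : (fun t => rho σ t y) = fun t => ∑' m : ℤ,
      e (t * ((⌊y⌋ + m : ℤ) : ℝ)) * (Kr σ (y - 1 / 2 - ((⌊y⌋ + m : ℤ) : ℝ)) : ℂ) := by
    funext t
    unfold rho
    exact ((Equiv.addLeft ⌊y⌋).tsum_eq
      (fun n : ℤ => e (t * n) * (Kr σ (y - 1 / 2 - n) : ℂ))).symm
  rw [this]
  refine continuous_tsum ?_ (summable_q σ h0 h1) (fun m t => term_bd σ t y h0 m)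
  intro m
  exact (e_cont.comp (by fun_prop)).mul continuous_const

/-- near part -/
noncomputable def Tn (k P : ℕ) (σ t θ : ℝ) : ℂ := ∑ x ∈ Ico P (4 * P),
  e (t * ⌊((x : ℝ) + θ) ^ k⌋) * (Kr σ (((x : ℝ) + θ) ^ k - 1 / 2 - ⌊((x : ℝ) + θ) ^ k⌋) : ℂ)

theorem T_sub (k P : ℕ) (σ t θ : ℝ) (h0 : 0 < σ) (h1 : σ ≤ 1) :
    ‖T k P σ t θ - Tn k P σ t θ‖ ≤ 12 * P * q σ := by
  unfold T Tn
  rw [← Finset.sum_sub_distrib]
  refine (norm_sum_le _ _).trans ?_
  refine (Finset.sum_le_sum (fun x _ => rho_sub σ t _ h0 h1)).trans ?_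
  rw [Finset.sum_const, Nat.card_Ico, nsmul_eq_mul]
  have : ((4 * P - P : ℕ) : ℝ) = 3 * P := by
    have : 4 * P - P = 3 * P := by omega
    rw [this]; push_cast; ring
  rw [this]
  apply le_of_eq
  ring

theorem Tn_bd (k P : ℕ) (σ t θ : ℝ) : ‖Tn k P σ t θ‖ ≤ 3 * P := by
  unfold Tn
  refine (norm_sum_le _ _).trans ?_
  have : ∀ x ∈ Ico P (4 * P), ‖e (t * ⌊((x : ℝ) + θ) ^ k⌋) *
      (Kr σ (((x : ℝ) + θ) ^ k - 1 / 2 - ⌊((x : ℝ) + θ) ^ k⌋) : ℂ)‖ ≤ 1 := by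
    intro x _
    rw [norm_mul, e_norm, one_mul, Complex.norm_real, Real.norm_of_nonneg (Kr_nonneg _ _)]
    exact Kr_le_one _ _
  refine (Finset.sum_le_sum this).trans ?_
  rw [Finset.sum_const, Nat.card_Ico, nsmul_eq_mul]
  have : ((4 * P - P : ℕ) : ℝ) = 3 * P := by
    have : 4 * P - P = 3 * P := by omega
    rw [this]; push_cast; ring
  rw [this]
  apply le_of_eq
  ring

theorem Tn_cont (k P : ℕ) (σ θ : ℝ) : Continuous (fun t => Tn k P σ t θ) := by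
  unfold Tn
  refine continuous_finsetSum _ (fun x _ => ?_)
  exact (e_cont.comp (by fun_prop)).mul continuous_const

theorem T_cont (k P : ℕ) (σ θ : ℝ) (h0 : 0 < σ) (h1 : σ ≤ 1) :
    Continuous (fun t => T k P σ t θ) := by
  unfold T
  exact continuous_finsetSum _ (fun x _ => rho_cont σ _ h0 h1)

theorem T_bd (k P : ℕ) (σ t θ : ℝ) (h0 : 0 < σ) (h1 : σ ≤ 1) : ‖T k P σ t θ‖ ≤ 12 * P := by
  have h2 := T_sub k P σ t θ h0 h1
  have h3 := Tn_bd k P σ t θ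
  have hq1 := q_le σ h0 h1
  have : ‖T k P σ t θ‖ ≤ ‖T k P σ t θ - Tn k P σ t θ‖ + ‖Tn k P σ t θ‖ := by
    have := norm_add_le (T k P σ t θ - Tn k P σ t θ) (Tn k P σ t θ)
    simpa using this
  have hP : (0 : ℝ) ≤ P := Nat.cast_nonneg P
  nlinarith

theorem prod_sub {ι : Type*} (S : Finset ι) (a b : ι → ℂ) (M κ : ℝ) (hM : 0 ≤ M) (hκ : 0 ≤ κ)
    (ha : ∀ i ∈ S, ‖a i‖ ≤ M) (hb : ∀ i ∈ S, ‖b i‖ ≤ M) (hab : ∀ i ∈ S, ‖a i - b i‖ ≤ M * κ) :
    ‖∏ i ∈ S, a i - ∏ i ∈ S, b i‖ ≤ S.card * M ^ S.card * κ := by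
  classical
  induction S using Finset.induction_on with
  | empty => simp
  | insert j S hj ih =>
    have ih' := ih (fun i hi => ha i (Finset.mem_insert_of_mem hi))
      (fun i hi => hb i (Finset.mem_insert_of_mem hi))
      (fun i hi => hab i (Finset.mem_insert_of_mem hi))
    rw [Finset.prod_insert hj, Finset.prod_insert hj, Finset.card_insert_of_notMem hj]
    have e1 : a j * ∏ i ∈ S, a i - b j * ∏ i ∈ S, b i =
        a j * (∏ i ∈ S, a i - ∏ i ∈ S, b i) + (a j - b j) * ∏ i ∈ S, b i := by ring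
    rw [e1]
    refine (norm_add_le _ _).trans ?_
    rw [norm_mul, norm_mul]
    have h1 : ‖∏ i ∈ S, b i‖ ≤ M ^ S.card := by
      rw [norm_prod]
      refine (Finset.prod_le_prod (fun i _ => norm_nonneg _)
        (fun i hi => hb i (Finset.mem_insert_of_mem hi))).trans ?_
      rw [Finset.prod_const]
    have h2 := ha j (Finset.mem_insert_self j S)
    have h3 := hab j (Finset.mem_insert_self j S)
    have h4 : ‖a j‖ * ‖∏ i ∈ S, a i - ∏ i ∈ S, b i‖ ≤ M * (S.card * M ^ S.card * κ) :=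
      mul_le_mul h2 ih' (norm_nonneg _) hM
    have h5 : ‖a j - b j‖ * ‖∏ i ∈ S, b i‖ ≤ (M * κ) * M ^ S.card :=
      mul_le_mul h3 h1 (norm_nonneg _) (mul_nonneg hM hκ)
    refine (add_le_add h4 h5).trans (le_of_eq ?_)
    push_cast
    ring

theorem near_zero (k s P : ℕ) (σ : ℝ) (N : ℤ) (θ : Fin s → ℝ)
    (hN : ∀ x ∈ Fintype.piFinset (fun _ : Fin s => Ico P (4 * P)),
      ∑ i, ⌊((x i : ℝ) + θ i) ^ k⌋ ≠ N) :
    ∫ t in (-(1/2) : ℝ)..(1 / 2), e (-(t * N)) * ∏ i, Tn k P σ t (θ i) = 0 := by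
  have h1 : ∀ t : ℝ, e (-(t * N)) * ∏ i, Tn k P σ t (θ i) =
      ∑ x ∈ Fintype.piFinset (fun _ : Fin s => Ico P (4 * P)),
        e (t * ((∑ i, ⌊((x i : ℝ) + θ i) ^ k⌋ - N : ℤ) : ℝ)) *
          ∏ i, (Kr σ (((x i : ℝ) + θ i) ^ k - 1 / 2 - ⌊((x i : ℝ) + θ i) ^ k⌋) : ℂ) := by
    intro t
    unfold Tn
    rw [Finset.prod_univ_sum, Finset.mul_sum]
    refine Finset.sum_congr rfl (fun x _ => ?_)
    rw [Finset.prod_mul_distrib, ← mul_assoc]
    congr 1
    rw [← e_sum, ← e_add]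
    congr 1
    push_cast
    rw [mul_sub, Finset.mul_sum]
    ring
  simp_rw [h1]
  rw [intervalIntegral.integral_finsetSum]
  · refine Finset.sum_eq_zero (fun x hx => ?_)
    rw [intervalIntegral.integral_mul_const, int_zero _ (sub_ne_zero.mpr (hN x hx)), zero_mul]
  · intro x _
    refine Continuous.intervalIntegrable ?_ _ _
    exact (e_cont.comp (by fun_prop)).mul continuous_const

theorem near (k s P : ℕ) (σ : ℝ) (N : ℤ) (θ : Fin s → ℝ) (h0 : 0 < σ) (h1 : σ ≤ 1)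
    (hN : ∀ x ∈ Fintype.piFinset (fun _ : Fin s => Ico P (4 * P)),
      ∑ i, ⌊((x i : ℝ) + θ i) ^ k⌋ ≠ N) :
    ‖∫ t in (-(1/2) : ℝ)..(1 / 2), e (-(t * N)) * ∏ i, T k P σ t (θ i)‖ ≤
      (24 * P) ^ s * Real.exp (-(Real.pi / (8 * σ ^ 2))) := by
  have hc1 : Continuous (fun t : ℝ => e (-(t * N)) * ∏ i, T k P σ t (θ i)) :=
    (e_cont.comp (by fun_prop)).mul
      (continuous_finsetProd _ (fun i _ => T_cont k P σ (θ i) h0 h1))
  have hc2 : Continuous (fun t : ℝ => e (-(t * N)) * ∏ i, Tn k P σ t (θ i)) :=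
    (e_cont.comp (by fun_prop)).mul
      (continuous_finsetProd _ (fun i _ => Tn_cont k P σ (θ i)))
  have hz := near_zero k s P σ N θ hN
  have e1 : ∫ t in (-(1/2) : ℝ)..(1 / 2), e (-(t * N)) * ∏ i, T k P σ t (θ i) =
      ∫ t in (-(1/2) : ℝ)..(1 / 2), (e (-(t * N)) * ∏ i, T k P σ t (θ i) -
        e (-(t * N)) * ∏ i, Tn k P σ t (θ i)) := by
    rw [intervalIntegral.integral_sub (hc1.intervalIntegrable _ _) (hc2.intervalIntegrable _ _),
      hz, sub_zero]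
  rw [e1]
  have hq := q_pos σ
  have hP : (0 : ℝ) ≤ P := Nat.cast_nonneg P
  have hb := intervalIntegral.norm_integral_le_of_norm_le_const (a := (-(1/2) : ℝ)) (b := 1/2)
    (C := (s : ℝ) * (12 * P) ^ s * q σ)
    (f := fun t : ℝ => (e (-(t * N)) * ∏ i, T k P σ t (θ i) -
        e (-(t * N)) * ∏ i, Tn k P σ t (θ i))) (by
      intro t _
      rw [← mul_sub, norm_mul, e_norm, one_mul]
      have := prod_sub (Finset.univ : Finset (Fin s)) (fun i => T k P σ t (θ i))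
        (fun i => Tn k P σ t (θ i)) (12 * P) (q σ) (by positivity) hq.le
        (fun i _ => T_bd k P σ t (θ i) h0 h1)
        (fun i _ => (Tn_bd k P σ t (θ i)).trans (by linarith))
        (fun i _ => T_sub k P σ t (θ i) h0 h1)
      simpa using this)
  refine hb.trans ?_
  have e2 : |(1 / 2 : ℝ) - -(1 / 2)| = 1 := by norm_num
  rw [e2, mul_one]
  have hq8 : q σ ≤ Real.exp (-(Real.pi / (8 * σ ^ 2))) := by
    unfold q
    apply Real.exp_le_exp.mpr
    have hpi := Real.pi_pos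
    have : Real.pi / (8 * σ ^ 2) ≤ Real.pi / (4 * σ ^ 2) := by
      apply div_le_div_of_nonneg_left (by positivity) (by positivity)
      nlinarith [sq_nonneg σ]
    linarith
  have hs : (s : ℝ) * (12 * P) ^ s ≤ (24 * P) ^ s := by
    have h2 : (24 * (P : ℝ)) ^ s = 2 ^ s * (12 * P) ^ s := by
      rw [← mul_pow]; ring_nf
    rw [h2]
    apply mul_le_mul_of_nonneg_right _ (by positivity)
    exact_mod_cast (Nat.lt_two_pow_self (n := s)).le
  exact mul_le_mul hs hq8 hq.le (by positivity)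

theorem t_NEAR : S_NEAR := fun s => ⟨24, by norm_num, fun k P σ θ N _ h0 h1 hN =>
  near k s P σ N θ h0 h1 hN⟩

end Pool.Agent.W700.WT.NEAR
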