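import Pool.Agent.W203.WS.Stm2

/-!
Every large integer is a sum of integer parts of shifted powers (assembly from the parts).
-/

set_option autoImplicit false

open MeasureTheory Finset Filter Topology

namespace Pool.Agent.W576.WT

open Pool.Agent.W203.WS

theorem asy (s k : ℕ) (hs : 2 * k < s) (C1 C2 c : ℝ)
    (hc : 0 < c) :
    ∀ᶠ Q : ℝ in atTop, 1 ≤ Q ∧ Q ^ (-(1 / (16 * (s : ℝ)))) * s ≤ 1 ∧
      (C1 * Q) ^ s * Real.exp (-(Real.pi / (8 * (Q ^ (-(1 / (16 * (s : ℝ))))) ^ 2))) +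
        Q ^ ((s : ℝ) - k - 1 / 8) + C2 <
        c * (Q ^ (-(1 / (16 * (s : ℝ))))) ^ s * Q ^ ((s : ℝ) - k) := by
  have hs0 : (0 : ℝ) < s := by exact_mod_cast (by omega : 0 < s)
  have hsk : (1 : ℝ) ≤ (s : ℝ) - k := by
    have h1 : ((k + 1 : ℕ) : ℝ) ≤ s := by exact_mod_cast (by omega : k + 1 ≤ s)
    push_cast at h1
    linarith
  have ha : ∀ᶠ Q : ℝ in atTop, Q ^ (-(1 / (16 * (s : ℝ)))) < 1 / s :=
    (tendsto_rpow_neg_atTop (y := 1 / (16 * (s : ℝ))) (by positivity)).eventually_lt_const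
      (by positivity)
  have hb : ∀ᶠ Q : ℝ in atTop, C1 ^ s * ((Q ^ (1 / (8 * (s : ℝ)))) ^ (8 * (s : ℝ) * s) *
      Real.exp (-(Real.pi / 8) * Q ^ (1 / (8 * (s : ℝ))))) < c / 3 := by
    have h := ((tendsto_rpow_mul_exp_neg_mul_atTop_nhds_zero (8 * (s : ℝ) * s) (Real.pi / 8)
      (by positivity)).comp (tendsto_rpow_atTop (y := 1 / (8 * (s : ℝ))) (by positivity))).const_mul
      (C1 ^ s)
    rw [mul_zero] at h
    exact h.eventually_lt_const (by positivity)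
  have hd : ∀ᶠ Q : ℝ in atTop, Q ^ (-(1 / 16 : ℝ)) < c / 3 :=
    (tendsto_rpow_neg_atTop (y := (1 / 16 : ℝ)) (by norm_num)).eventually_lt_const
      (by positivity)
  have he : ∀ᶠ Q : ℝ in atTop, 3 * C2 / c < Q ^ ((s : ℝ) - k - 1 / 16) :=
    (tendsto_rpow_atTop (y := (s : ℝ) - k - 1 / 16) (by linarith)).eventually_gt_atTop _
  filter_upwards [ha, hb, hd, he, eventually_ge_atTop (1 : ℝ)] with Q ha hb hd he hQ
  have hQ0 : 0 < Q := by linarith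
  refine ⟨hQ, ?_, ?_⟩
  · have h1 := mul_lt_mul_of_pos_right ha hs0
    rw [one_div_mul_cancel hs0.ne'] at h1
    exact h1.le
  · have e1 : (Q ^ (-(1 / (16 * (s : ℝ))))) ^ 2 = (Q ^ (1 / (8 * (s : ℝ))))⁻¹ := by
      rw [← Real.rpow_natCast, ← Real.rpow_mul hQ0.le, ← Real.rpow_neg hQ0.le]
      congr 1
      push_cast
      field_simp
      norm_num
    have e2 : (Q ^ (-(1 / (16 * (s : ℝ))))) ^ s = Q ^ (-(1 / 16 : ℝ)) := by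
      rw [← Real.rpow_natCast, ← Real.rpow_mul hQ0.le]
      congr 1
      field_simp
    have e3 : (Q ^ (1 / (8 * (s : ℝ)))) ^ (8 * (s : ℝ) * s) = Q ^ s := by
      rw [← Real.rpow_mul hQ0.le, ← Real.rpow_natCast]
      congr 1
      field_simp
    have e4 : Real.pi / (8 * (Q ^ (1 / (8 * (s : ℝ))))⁻¹) =
        (Real.pi / 8) * Q ^ (1 / (8 * (s : ℝ))) := by
      have : 0 < Q ^ (1 / (8 * (s : ℝ))) := Real.rpow_pos_of_pos hQ0 _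
      field_simp
    have e5 : Q ^ ((s : ℝ) - k - 1 / 8) = Q ^ (-(1 / 16 : ℝ)) * Q ^ ((s : ℝ) - k - 1 / 16) := by
      rw [← Real.rpow_add hQ0]
      congr 1
      ring
    have e6 : Q ^ (-(1 / 16 : ℝ)) * Q ^ ((s : ℝ) - k) = Q ^ ((s : ℝ) - k - 1 / 16) := by
      rw [← Real.rpow_add hQ0]
      congr 1
      ring
    have e7 : (1 : ℝ) ≤ Q ^ ((s : ℝ) - k - 1 / 16) := Real.one_le_rpow hQ (by linarith)
    rw [e1, e2, e4, e5, mul_assoc c, e6, mul_pow]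
    rw [e3, neg_mul, ← mul_assoc] at hb
    rw [div_lt_iff₀ hc] at he
    have e8 : Q ^ (-(1 / 16 : ℝ)) * Q ^ ((s : ℝ) - k - 1 / 16) ≤
        c / 3 * Q ^ ((s : ℝ) - k - 1 / 16) :=
      mul_le_mul_of_nonneg_right hd.le (by linarith)
    nlinarith [hb, e8, he, e7, mul_le_mul_of_nonneg_left e7 hc.le]

theorem scale (s k : ℕ) (hk : 2 ≤ k) (hs : 2 * k < s) (j₁ : ℕ) (M : ℝ)
    (hM : (s : ℝ) * (3 / 2 * (2 : ℝ) ^ j₁) ^ k ≤ M) :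
    ∃ j : ℕ, j₁ ≤ j ∧ (s : ℝ) * (3 / 2 * (2 : ℝ) ^ j) ^ k ≤ M ∧
      M ≤ (s : ℝ) * (3 * (2 : ℝ) ^ j) ^ k := by
  have hs1 : (1 : ℝ) ≤ s := by exact_mod_cast (by omega : 1 ≤ s)
  have hex : ∃ n : ℕ, M < (s : ℝ) * (3 / 2 * (2 : ℝ) ^ n) ^ k := by
    obtain ⟨n, hn⟩ := pow_unbounded_of_one_lt M (by norm_num : (1 : ℝ) < 2)
    refine ⟨n, ?_⟩
    have h1 : (1 : ℝ) ≤ (2 : ℝ) ^ n := one_le_pow₀ (by norm_num)
    have h2 : (2 : ℝ) ^ n ≤ 3 / 2 * (2 : ℝ) ^ n := by linarith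
    have h3 : 3 / 2 * (2 : ℝ) ^ n ≤ (3 / 2 * (2 : ℝ) ^ n) ^ k :=
      le_self_pow₀ (by linarith) (by omega)
    have h4 : (3 / 2 * (2 : ℝ) ^ n) ^ k ≤ s * (3 / 2 * (2 : ℝ) ^ n) ^ k :=
      le_mul_of_one_le_left (by positivity) hs1
    linarith
  classical
  have hfind := Nat.find_spec hex
  have hmin : ∀ m, m < Nat.find hex → ¬ M < (s : ℝ) * (3 / 2 * (2 : ℝ) ^ m) ^ k :=
    fun m hm => Nat.find_min hex hm
  have hlt : j₁ < Nat.find hex := by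
    by_contra hcon
    have h1 : Nat.find hex ≤ j₁ := not_lt.1 hcon
    have h2 : (2 : ℝ) ^ (Nat.find hex) ≤ (2 : ℝ) ^ j₁ := pow_le_pow_right₀ (by norm_num) h1
    have h3 : (3 / 2 * (2 : ℝ) ^ (Nat.find hex)) ^ k ≤ (3 / 2 * (2 : ℝ) ^ j₁) ^ k :=
      pow_le_pow_left₀ (by positivity) (by linarith) k
    have h4 := mul_le_mul_of_nonneg_left h3 (by linarith : (0 : ℝ) ≤ s)
    linarith
  obtain ⟨j, hj⟩ : ∃ j, Nat.find hex = j + 1 := ⟨Nat.find hex - 1, by omega⟩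
  refine ⟨j, by omega, not_lt.1 (hmin j (by omega)), ?_⟩
  rw [hj] at hfind
  have h5 : 3 / 2 * (2 : ℝ) ^ (j + 1) = 3 * (2 : ℝ) ^ j := by
    rw [pow_succ]
    ring
  rw [h5] at hfind
  exact hfind.le

theorem t_FL (h1 : S_BC2) (h2 : S_MT) (h3 : S_NEAR) : S_FL := by
  intro k s hk hs
  obtain ⟨C1, hC1, hN⟩ := h3 s
  obtain ⟨c, C2, hc, hC2, hM⟩ := h2 k s hk (by omega)
  filter_upwards [h1 k s hk hs] with θ hθ
  obtain ⟨j₀, hj₀⟩ := hθ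
  intro L
  have hpow : Tendsto (fun j : ℕ => (2 : ℝ) ^ j) atTop atTop :=
    tendsto_pow_atTop_atTop_of_one_lt (by norm_num)
  have hev := (hpow.eventually (asy s k hs C1 C2 c hc)).and
    ((hpow.eventually_ge_atTop (L : ℝ)).and (eventually_ge_atTop j₀))
  obtain ⟨j₁, hj₁⟩ := eventually_atTop.1 hev
  refine ⟨⌈(s : ℝ) * (3 / 2 * (2 : ℝ) ^ j₁) ^ k⌉, ?_⟩
  intro N hN0
  have hs0 : (0 : ℝ) ≤ s := Nat.cast_nonneg s
  have hNr : (s : ℝ) * (3 / 2 * (2 : ℝ) ^ j₁) ^ k ≤ (N : ℝ) + s / 2 := by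
    have := Int.ceil_le.1 hN0
    linarith
  obtain ⟨j, hj, hl, hu⟩ := scale s k hk hs j₁ _ hNr
  obtain ⟨⟨hQ1, hQ2, hQ3⟩, hL, hj0⟩ := hj₁ j hj
  by_contra hcon
  have hno : ∀ x ∈ Fintype.piFinset (fun _ : Fin s => Ico (2 ^ j : ℕ) (4 * 2 ^ j : ℕ)),
      ∑ i, ⌊((x i : ℝ) + θ i) ^ k⌋ ≠ N := by
    intro x hx hsum
    apply hcon
    refine ⟨x, ?_, hsum⟩
    intro i
    have h4 := (Finset.mem_Ico.1 (Fintype.mem_piFinset.1 hx i)).1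
    have h5 : L ≤ 2 ^ j := by exact_mod_cast hL
    omega
  have hP : 1 ≤ 2 ^ j := Nat.one_le_two_pow
  have hσ0 : (0 : ℝ) < ((2 : ℝ) ^ j) ^ (-(1 / (16 * (s : ℝ)))) :=
    Real.rpow_pos_of_pos (by positivity) _
  have hs1 : (1 : ℝ) ≤ s := by exact_mod_cast (by omega : 1 ≤ s)
  have hσ1 : ((2 : ℝ) ^ j) ^ (-(1 / (16 * (s : ℝ)))) ≤ 1 := by
    nlinarith [hQ2, hσ0, hs1]
  have a1 := hN k (2 ^ j) _ θ N hP hσ0 hσ1 hno
  have a2 := hM (2 ^ j) _ N hP hσ0 hQ2 (by push_cast; exact hl) (by push_cast; exact hu)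
  have a3 := hj₀ j hj0 N
  push_cast at a1 a2
  have a4 := norm_sub_norm_le
    (∫ t in (-(1 / 2) : ℝ)..(1 / 2), e (-(t * N)) *
            (aa (((2 : ℝ) ^ j) ^ (-(1 / (16 * (s : ℝ))))) t ^ s * J1 k (2 ^ j) t ^ s))
    (∫ t in (-(1 / 2) : ℝ)..(1 / 2), e (-(t * N)) *
            ∏ i, T k (2 ^ j) (((2 : ℝ) ^ j) ^ (-(1 / (16 * (s : ℝ))))) t (θ i))
  rw [norm_sub_rev] at a4
  linarith

end Pool.Agent.W576.WT
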